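import Pool.Graph.R_seed8.H265R3.ML.PathStar

/-!
# Connected graphs without two disjoint claws: the basic facts about minors
-/

set_option autoImplicit false

namespace Pool.Agent.H49.Hub

open SimpleGraph Filter Topology Pool.Agent.H265R3.ML

/-- The graph contains two disjoint claws, with centres `0` and `4`. -/
def Claws (H : SimpleGraph (Fin 8)) : Prop :=
  (H.Adj 0 1 ∧ H.Adj 0 2 ∧ H.Adj 0 3) ∧ (H.Adj 4 5 ∧ H.Adj 4 6 ∧ H.Adj 4 7)

/-- The connected graphs on `8` vertices which contain two disjoint claws. -/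
def TwoClaws : Set FGraph :=
  {H | ∃ G : SimpleGraph (Fin 8), G.Connected ∧ Claws G ∧ H = ⟨8, G⟩}

theorem twoClaws_finite : TwoClaws.Finite := by
  refine (Set.toFinite (Set.range fun G : SimpleGraph (Fin 8) => (⟨8, G⟩ : FGraph))).subset ?_
  rintro _ ⟨G, -, -, rfl⟩
  exact ⟨G, rfl⟩

theorem twoClaws_connected : ∀ H ∈ TwoClaws, H.2.Connected := by
  rintro _ ⟨G, h, -, rfl⟩
  exact h

theorem twoClaws_nonempty : TwoClaws.Nonempty := by
  refine ⟨⟨8, ⊤⟩, ⊤, ?_, ⟨⟨?_, ?_, ?_⟩, ?_, ?_, ?_⟩, rfl⟩
  · exact connected_top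
  all_goals (rw [top_adj]; decide)

/-- Every vertex except `v` has at most two neighbours different from `v`. -/
def Two {V : Type} (G : SimpleGraph V) (v : V) : Prop :=
  ∀ w, w ≠ v → ∀ a b c, a ≠ v → b ≠ v → c ≠ v → a ≠ b → a ≠ c → b ≠ c →
    G.Adj w a → G.Adj w b → G.Adj w c → False

theorem claw_free {V : Type} [Fintype V] {G : SimpleGraph V} {v : V} (h2 : Two G v)
    (C : Set V) (D : Fin 3 → Set V) (hC : (G.induce C).Connected) (hv : v ∉ C)
    (hvD : ∀ i, v ∉ D i) (hCD : ∀ i, Disjoint C (D i)) (hD : ∀ i j, i ≠ j → Disjoint (D i) (D j))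
    (hadj : ∀ i, ∃ x ∈ C, ∃ y ∈ D i, G.Adj x y) : False := by
  classical
  choose x hx y hy hxy using hadj
  have hyinj : Function.Injective y := by
    intro i j hij
    by_contra hne
    exact Set.disjoint_left.1 (hD i j hne) (hy i) (hij ▸ hy j)
  have hyC : ∀ i, y i ∉ C := fun i h => Set.disjoint_left.1 (hCD i) h (hy i)
  have hdeg : ∀ w : C, (G.induce C).degree w +
      (Finset.univ.filter fun i : Fin 3 => (⟨x i, hx i⟩ : C) = w).card ≤ 2 := by
    intro w
    have h1 : ((Finset.univ.filter fun z : V => G.Adj w z ∧ z ≠ v)).card ≤ 2 := by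
      by_contra hlt
      push Not at hlt
      obtain ⟨a, ha, b, hb, c, hc, hab, hac, hbc⟩ := Finset.two_lt_card.1 hlt
      simp only [Finset.mem_filter, Finset.mem_univ, true_and] at ha hb hc
      exact h2 w (fun h => hv (h ▸ w.2)) a b c ha.2 hb.2 hc.2 hab hac hbc ha.1 hb.1 hc.1
    refine le_trans ?_ h1
    rw [← SimpleGraph.card_neighborFinset_eq_degree,
      ← Finset.card_map ⟨Subtype.val, Subtype.val_injective⟩ (s := (G.induce C).neighborFinset w),
      ← Finset.card_image_of_injective
        (Finset.univ.filter fun i : Fin 3 => (⟨x i, hx i⟩ : C) = w) hyinj,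
      ← Finset.card_union_of_disjoint]
    · apply Finset.card_le_card
      intro z hz
      simp only [Finset.mem_union, Finset.mem_map, mem_neighborFinset, Finset.mem_image,
        Finset.mem_filter, Finset.mem_univ, true_and] at hz ⊢
      rcases hz with ⟨u, hu, rfl⟩ | ⟨i, hi, rfl⟩
      · refine ⟨hu, fun h => hv ?_⟩
        have := u.2
        change (u : V) = v at h
        rwa [h] at this
      · refine ⟨?_, fun h => hvD i (h ▸ hy i)⟩
        rw [← hi]
        exact hxy i
    · rw [Finset.disjoint_left]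
      intro z hz hz'
      simp only [Finset.mem_map, Finset.mem_image] at hz hz'
      obtain ⟨u, -, rfl⟩ := hz
      obtain ⟨i, -, hi⟩ := hz'
      apply hyC i
      rw [hi]
      exact u.2
  have hsum := Finset.sum_le_sum (fun w (_ : w ∈ (Finset.univ : Finset C)) => hdeg w)
  rw [Finset.sum_add_distrib, sum_degrees_eq_twice_card_edges,
    ← Finset.card_eq_sum_card_fiberwise (f := fun i : Fin 3 => (⟨x i, hx i⟩ : C))
      (s := Finset.univ) (t := Finset.univ) (fun _ _ => Finset.mem_coe.2 (Finset.mem_univ _))] at hsum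
  have hc := hC.card_vert_le_card_edgeSet_add_one
  simp only [Finset.sum_const, Finset.card_univ, smul_eq_mul, Fintype.card_fin] at hsum
  rw [Nat.card_eq_fintype_card, Nat.card_eq_fintype_card, ← edgeFinset_card] at hc
  omega

theorem not_minor_aux {V : Type} [Fintype V] {G : SimpleGraph V} {v : V} (h2 : Two G v)
    (K : SimpleGraph (Fin 8)) (hK : Claws K) : ¬ IsMinor K G := by
  obtain ⟨⟨a1, a2, a3⟩, b1, b2, b3⟩ := hK
  rintro ⟨B, hB, hd, ha⟩
  have hsep : (∀ i : Fin 8, i.val < 4 → v ∉ B i) ∨ (∀ i : Fin 8, 4 ≤ i.val → v ∉ B i) := by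
    by_contra hc
    rw [not_or] at hc
    push Not at hc
    obtain ⟨⟨i, hi, hvi⟩, j, hj, hvj⟩ := hc
    have hij : i ≠ j := fun h => by rw [h] at hi; omega
    exact Set.disjoint_left.1 (hd i j hij) hvi hvj
  rcases hsep with h | h
  · refine claw_free h2 (B 0) ![B 1, B 2, B 3] (hB 0) (h 0 (by decide)) ?_ ?_ ?_ ?_
    · intro i; fin_cases i
      · exact h 1 (by decide)
      · exact h 2 (by decide)
      · exact h 3 (by decide)
    · intro i; fin_cases i
      · exact hd 0 1 (by decide)
      · exact hd 0 2 (by decide)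
      · exact hd 0 3 (by decide)
    · intro i j hij
      fin_cases i <;> fin_cases j <;> first | exact absurd rfl hij | exact hd _ _ (by decide)
    · intro i; fin_cases i
      · exact ha 0 1 a1
      · exact ha 0 2 a2
      · exact ha 0 3 a3
  · refine claw_free h2 (B 4) ![B 5, B 6, B 7] (hB 4) (h 4 (by decide)) ?_ ?_ ?_ ?_
    · intro i; fin_cases i
      · exact h 5 (by decide)
      · exact h 6 (by decide)
      · exact h 7 (by decide)
    · intro i; fin_cases i
      · exact hd 4 5 (by decide)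
      · exact hd 4 6 (by decide)
      · exact hd 4 7 (by decide)
    · intro i j hij
      fin_cases i <;> fin_cases j <;> first | exact absurd rfl hij | exact hd _ _ (by decide)
    · intro i; fin_cases i
      · exact ha 4 5 b1
      · exact ha 4 6 b2
      · exact ha 4 7 b3

theorem not_minor {V : Type} [Fintype V] {G : SimpleGraph V} {v : V} (h2 : Two G v) :
    ∀ H ∈ TwoClaws, ¬ IsMinor H.2 G := by
  rintro _ ⟨K, -, hK, rfl⟩
  exact not_minor_aux h2 K hK

end Pool.Agent.H49.Hub
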