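import Pool.Agent.H49.Hub.Unl3

/-!
# Joining a path at the root to the hub
-/

set_option autoImplicit false

namespace Pool.Agent.H49.Hub

open SimpleGraph Filter Topology MeasureTheory Pool.Agent.H265R3.ML

/-- The vertex `v` is joined to the vertices of `W`. -/
def joinG {V : Type} (G : SimpleGraph V) (v : V) (W : Set V) : SimpleGraph V where
  Adj x y := G.Adj x y ∨ (x = v ∧ y ∈ W ∧ y ≠ v) ∨ (y = v ∧ x ∈ W ∧ x ≠ v)
  symm := ⟨fun x y h => by
    rcases h with h | h | h
    · exact Or.inl h.symm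
    · exact Or.inr (Or.inr h)
    · exact Or.inr (Or.inl h)⟩
  loopless := ⟨fun x h => by
    rcases h with h | h | h
    · exact G.loopless.irrefl x h
    · exact h.2.2 h.1
    · exact h.2.2 h.1⟩

theorem le_joinG {V : Type} (G : SimpleGraph V) (v : V) (W : Set V) : G ≤ joinG G v W :=
  fun _ _ h => Or.inl h

theorem join_away {V : Type} {G : SimpleGraph V} {v : V} {W : Set V} {x y : V} (hx : x ≠ v)
    (hy : y ≠ v) (h : (joinG G v W).Adj x y) : G.Adj x y := by
  rcases h with h | h | h
  · exact h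
  · exact absurd h.1 hx
  · exact absurd h.1 hy

theorem join_two {V : Type} {G : SimpleGraph V} {v : V} (W : Set V) (h : Two G v) :
    Two (joinG G v W) v := by
  intro w hw a b c ha hb hc hab hac hbc h1 h2 h3
  exact h w hw a b c ha hb hc hab hac hbc (join_away hw ha h1) (join_away hw hb h2)
    (join_away hw hc h3)

/-- The data: a hub `v` and a path `u 0, ..., u K` of vertices that are not adjacent to it. -/
structure Pth {V : Type} [Fintype V] (G : SimpleGraph V) (o v : V) (K : ℕ) (u : ℕ → V) : Prop where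
  deg : 7 < (nb G v).card
  two : Two G v
  start : u 0 = o
  step : ∀ i < K, G.Adj (u i) (u (i + 1))
  ne : ∀ i ≤ K, u i ≠ v
  nadj : ∀ i ≤ K, ¬ G.Adj (u i) v
  inj : ∀ i ≤ K, ∀ j ≤ K, u i = u j → i = j

/-- The set of the chosen vertices of the path. -/
def chosen {V : Type} {K : ℕ} (u : ℕ → V) (I : Finset (Fin (K + 1))) : Set V :=
  {x | ∃ i ∈ I, x = u i}

theorem mem_chosen {V : Type} [Fintype V] {G : SimpleGraph V} {o v : V} {K : ℕ} {u : ℕ → V}
    (h : Pth G o v K u) (I : Finset (Fin (K + 1))) (i : Fin (K + 1)) :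
    u i ∈ chosen u I ↔ i ∈ I := by
  constructor
  · rintro ⟨j, hj, hij⟩
    have h1 := h.inj i (by have := i.2; omega) j (by have := j.2; omega) hij
    rw [Fin.ext h1]
    exact hj
  · intro hi
    exact ⟨i, hi, rfl⟩

theorem chosen_ne {V : Type} [Fintype V] {G : SimpleGraph V} {o v : V} {K : ℕ} {u : ℕ → V}
    (h : Pth G o v K u) (I : Finset (Fin (K + 1))) {x : V} (hx : x ∈ chosen u I) :
    x ≠ v ∧ ¬ G.Adj x v := by
  obtain ⟨i, -, rfl⟩ := hx
  exact ⟨h.ne i (by have := i.2; omega), h.nadj i (by have := i.2; omega)⟩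

/-- The graph and the chosen vertices can be recovered. -/
theorem join_rec {V V' : Type} [Fintype V] [Fintype V'] {G : SimpleGraph V} {G' : SimpleGraph V'}
    {o v : V} {o' v' : V'} {K : ℕ} (hK : 1 ≤ K) {u : ℕ → V} {u' : ℕ → V'}
    (h : Pth G o v K u) (h' : Pth G' o' v' K u') {I I' : Finset (Fin (K + 1))}
    (g : joinG G v (chosen u I) ≃g joinG G' v' (chosen u' I')) (ho : g o = o')
    (h1 : g (u 1) = u' 1) : I = I' ∧ ∀ x y, G.Adj x y ↔ G'.Adj (g x) (g y) := by
  classical
  have hv : g v = v' := by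
    refine hub_unique (G := joinG G' v' (chosen u' I')) (join_two (chosen u' I') h'.two) ?_
    have h2 : (nb (joinG G v (chosen u I)) v).card ≤
        (nb (joinG G' v' (chosen u' I')) (g v)).card := by
      rw [← Finset.card_map g.toEquiv.toEmbedding]
      apply Finset.card_le_card
      intro z hz
      obtain ⟨w, hw, rfl⟩ := Finset.mem_map.1 hz
      exact mem_nb.2 (g.map_adj_iff.2 (mem_nb.1 hw))
    have h3 := nb_mono (le_joinG G v (chosen u I)) v
    have h4 := h.deg
    omega
  have hu : ∀ i, i ≤ K → (∀ j ≤ i, g (u j) = u' j) := by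
    intro i
    induction i with
    | zero =>
      intro _ j hj
      obtain rfl : j = 0 := by omega
      rw [h.start, h'.start, ho]
    | succ i ih =>
      intro hi j hj
      have ih' := ih (by omega)
      by_cases hj1 : j ≤ i
      · exact ih' j hj1
      obtain rfl : j = i + 1 := by omega
      by_cases hi0 : i = 0
      · subst hi0
        exact h1
      obtain ⟨l, rfl⟩ : ∃ l, i = l + 1 := ⟨i - 1, by omega⟩
      by_contra hne
      have hgl : g (u l) = u' l := ih' l (by omega)
      have hgl1 : g (u (l + 1)) = u' (l + 1) := ih' (l + 1) le_rfl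
      have hn2 : g (u (l + 2)) ≠ v' := fun h5 => h.ne (l + 2) (by omega)
        (g.injective (h5.trans hv.symm))
      have ha : G'.Adj (u' (l + 1)) (g (u (l + 2))) := by
        refine join_away (h'.ne (l + 1) (by omega)) hn2 (W := chosen u' I') ?_
        rw [← hgl1]
        exact g.map_adj_iff.2 (Or.inl (h.step (l + 1) (by omega)))
      refine h'.two (u' (l + 1)) (h'.ne _ (by omega)) (u' l) (g (u (l + 2))) (u' (l + 2))
        (h'.ne _ (by omega)) hn2 (h'.ne _ (by omega)) ?_ ?_ hne (h'.step l (by omega)).symm ha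
        (h'.step (l + 1) (by omega))
      · rw [← hgl]
        intro h5
        have := h.inj l (by omega) (l + 2) (by omega) (g.injective h5)
        omega
      · intro h5
        have := h'.inj l (by omega) (l + 2) (by omega) h5
        omega
  have huK : ∀ i : Fin (K + 1), g (u i) = u' i := fun i =>
    hu K le_rfl i (by have := i.2; omega)
  have hI : ∀ i, i ∈ I ↔ i ∈ I' := by
    intro i
    have hiK : (i : ℕ) ≤ K := by have := i.2; omega
    have e1 : i ∈ I ↔ (joinG G v (chosen u I)).Adj v (u i) := by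
      rw [← mem_chosen h I i]
      constructor
      · intro h2
        exact Or.inr (Or.inl ⟨rfl, h2, h.ne i hiK⟩)
      · rintro (h2 | h2 | h2)
        · exact absurd h2.symm (h.nadj i hiK)
        · exact h2.2.1
        · exact absurd h2.1 (h.ne i hiK)
    have e2 : i ∈ I' ↔ (joinG G' v' (chosen u' I')).Adj v' (u' i) := by
      rw [← mem_chosen h' I' i]
      constructor
      · intro h2
        exact Or.inr (Or.inl ⟨rfl, h2, h'.ne i hiK⟩)
      · rintro (h2 | h2 | h2)
        · exact absurd h2.symm (h'.nadj i hiK)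
        · exact h2.2.1
        · exact absurd h2.1 (h'.ne i hiK)
    have e3 := g.map_adj_iff (v := v) (w := u i)
    rw [hv, huK i] at e3
    rw [e1, e2, e3]
  have hII : I = I' := Finset.ext hI
  refine ⟨hII, ?_⟩
  have hW : ∀ x, x ∈ chosen u I ↔ g x ∈ chosen u' I' := by
    intro x
    constructor
    · rintro ⟨i, hi, rfl⟩
      exact ⟨i, (hI i).1 hi, huK i⟩
    · rintro ⟨i, hi, hx⟩
      refine ⟨i, (hI i).2 hi, g.injective ?_⟩
      rw [hx, huK]
  have key : ∀ {V : Type} (G : SimpleGraph V) (v : V) (W : Set V) (x y : V),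
      (∀ z ∈ W, z ≠ v ∧ ¬ G.Adj z v) →
      (G.Adj x y ↔ (joinG G v W).Adj x y ∧ ¬ ((x = v ∧ y ∈ W) ∨ (y = v ∧ x ∈ W))) := by
    intro V G v W x y hz
    constructor
    · intro h2
      refine ⟨Or.inl h2, ?_⟩
      rintro (⟨rfl, h3⟩ | ⟨rfl, h3⟩)
      · exact (hz y h3).2 h2.symm
      · exact (hz x h3).2 h2
    · rintro ⟨h2 | h2 | h2, h3⟩
      · exact h2
      · exact absurd (Or.inl ⟨h2.1, h2.2.1⟩) h3
      · exact absurd (Or.inr ⟨h2.1, h2.2.1⟩) h3
  intro x y
  have e1 : g x = v' ↔ x = v :=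
    ⟨fun h2 => g.injective (h2.trans hv.symm), fun h2 => h2 ▸ hv⟩
  have e2 : g y = v' ↔ y = v :=
    ⟨fun h2 => g.injective (h2.trans hv.symm), fun h2 => h2 ▸ hv⟩
  rw [key G v _ x y fun z hz => chosen_ne h I hz,
    key G' v' _ (g x) (g y) fun z hz => chosen_ne h' I' hz, g.map_adj_iff, e1, e2, ← hW, ← hW]

end Pool.Agent.H49.Hub
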