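import Pool.Agent.H49.Hub.Esc

/-!
# Counting the graphs in which the hub is far from the root
-/

set_option autoImplicit false

namespace Pool.Agent.H49.Hub

open SimpleGraph Filter Topology MeasureTheory Pool.Agent.H265R3.ML

theorem two_iso {V W : Type} {G : SimpleGraph V} {T : SimpleGraph W} (e : G ≃g T) {v : V}
    (h : Two G v) : Two T (e v) := by
  intro w hw a b c ha hb hc hab hac hbc h1 h2 h3
  have hne : ∀ u, u ≠ e v → e.symm u ≠ v := fun u hu h => hu (by rw [← h]; simp)
  exact h (e.symm w) (hne w hw) (e.symm a) (e.symm b) (e.symm c) (hne a ha) (hne b hb)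
    (hne c hc) (fun h => hab (e.symm.injective h)) (fun h => hac (e.symm.injective h))
    (fun h => hbc (e.symm.injective h)) (e.symm.map_adj_iff.2 h1) (e.symm.map_adj_iff.2 h2)
    (e.symm.map_adj_iff.2 h3)

theorem deg_iso {V W : Type} [Fintype V] [Fintype W] {G : SimpleGraph V} {T : SimpleGraph W}
    (e : G ≃g T) (v : V) : (nb G v).card ≤ (nb T (e v)).card := by
  classical
  rw [← Finset.card_map e.toEquiv.toEmbedding]
  apply Finset.card_le_card
  intro z hz
  obtain ⟨w, hw, rfl⟩ := Finset.mem_map.1 hz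
  exact mem_nb.2 (e.map_adj_iff.2 (mem_nb.1 hw))

open Classical in
/-- A neighbour of the root different from the hub. -/
noncomputable def mark {n : ℕ} (T : SimpleGraph (Fin n) × Fin n) : Fin n :=
  if h : ∃ z v, 7 < (nb T.1 v).card ∧ Two T.1 v ∧ T.1.Adj T.2 z ∧ z ≠ v then h.choose else T.2

theorem mark_spec {n : ℕ} {T : SimpleGraph (Fin n) × Fin n} {v z z' : Fin n}
    (hd : 7 < (nb T.1 v).card) (h2 : Two T.1 v) (ho : T.2 ≠ v) (hz : T.1.Adj T.2 z) (hzv : z ≠ v)
    (hz' : T.1.Adj T.2 z') (hzv' : z' ≠ v) (h : z = mark T ↔ z' = mark T) : z = z' := by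
  have hex : ∃ z v, 7 < (nb T.1 v).card ∧ Two T.1 v ∧ T.1.Adj T.2 z ∧ z ≠ v :=
    ⟨z, v, hd, h2, hz, hzv⟩
  have hm : mark T = hex.choose := by
    unfold mark
    rw [dif_pos hex]
  obtain ⟨v', hd', h2', hm1, hm2⟩ := hex.choose_spec
  rw [← hm] at hm1 hm2
  have hvv : v' = v := hub_unique h2 (by omega)
  rw [hvv] at hm2
  by_cases h3 : z = mark T
  · rw [h.1 h3]
    exact h3
  · have h4 : z' ≠ mark T := fun h5 => h3 (h.2 h5)
    by_contra hne
    exact h2 T.2 ho (mark T) z z' hm2 hzv hzv' (Ne.symm h3) (Ne.symm h4) hne hm1 hz hz'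

theorem path_count {n K : ℕ} (hK : 1 ≤ K) {B Q : Type*} [Finite B] [Finite Q]
    (G : B → SimpleGraph (Fin n)) (o v : B → Fin n) (u : B → ℕ → Fin n)
    (hP : ∀ b, Pth (G b) (o b) (v b) K (u b)) (rep : Q → SimpleGraph (Fin n) × Fin n)
    (t : B × Finset (Fin (K + 1)) → Q)
    (e : ∀ q, joinG (G q.1) (v q.1) (chosen (u q.1) q.2) ≃g (rep (t q)).1)
    (he : ∀ q, e q (o q.1) = (rep (t q)).2)
    (hsep : ∀ q q', t q = t q' →
      (∀ x y, (G q.1).Adj x y ↔ (G q'.1).Adj ((e q').symm (e q x)) ((e q').symm (e q y))) →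
      q.1 = q'.1) : Nat.card B * 2 ^ (K + 1) ≤ Nat.card Q * 2 := by
  classical
  have hcard : Nat.card (B × Finset (Fin (K + 1))) = Nat.card B * 2 ^ (K + 1) := by
    rw [Nat.card_prod, Nat.card_eq_fintype_card (α := Finset (Fin (K + 1))), Fintype.card_finset,
      Fintype.card_fin]
  have hcard2 : Nat.card (Q × Bool) = Nat.card Q * 2 := by
    rw [Nat.card_prod, Nat.card_eq_fintype_card (α := Bool), Fintype.card_bool]
  rw [← hcard, ← hcard2]
  refine Nat.card_le_card_of_injective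
    (fun q => (t q, decide (e q (u q.1 1) = mark (rep (t q))))) ?_
  intro q q' h
  have ht : t q = t q' := congrArg (fun x => x.1) h
  have hb : decide (e q (u q.1 1) = mark (rep (t q))) =
      decide (e q' (u q'.1 1) = mark (rep (t q'))) := congrArg (fun x => x.2) h
  have hb' : e q (u q.1 1) = mark (rep (t q)) ↔ e q' (u q'.1 1) = mark (rep (t q')) := by
    simpa using hb
  obtain ⟨T, hT⟩ : ∃ T, T = rep (t q) := ⟨_, rfl⟩
  have hT' : T = rep (t q') := by rw [hT, ht]
  obtain ⟨e1, he1⟩ : ∃ e1 : joinG (G q.1) (v q.1) (chosen (u q.1) q.2) ≃g T.1,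
      ∀ z, e1 z = e q z := by
    subst hT
    exact ⟨e q, fun _ => rfl⟩
  obtain ⟨e2, he2⟩ : ∃ e2 : joinG (G q'.1) (v q'.1) (chosen (u q'.1) q'.2) ≃g T.1,
      ∀ z, e2 z = e q' z := by
    subst hT'
    exact ⟨e q', fun _ => rfl⟩
  have hs2 : ∀ z, e2.symm z = (e q').symm z := by
    intro z
    apply e2.injective
    rw [RelIso.apply_symm_apply, he2, RelIso.apply_symm_apply]
  have hm1 : mark T = mark (rep (t q)) := congrArg mark hT
  have hm2 : mark T = mark (rep (t q')) := congrArg mark hT'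
  rw [← hm1, ← hm2, ← he1, ← he2] at hb'
  have r1 : e1 (o q.1) = T.2 := by rw [he1, he q, hT]
  have r2 : e2 (o q'.1) = T.2 := by rw [he2, he q', hT']
  have P := hP q.1
  have P' := hP q'.1
  have hdT : 7 < (nb T.1 (e1 (v q.1))).card :=
    lt_of_lt_of_le (lt_of_lt_of_le P.deg (nb_mono (le_joinG _ _ _) _)) (deg_iso e1 (v q.1))
  have h2T : Two T.1 (e1 (v q.1)) := two_iso e1 (join_two _ P.two)
  have hdT' : 7 < (nb T.1 (e2 (v q'.1))).card :=
    lt_of_lt_of_le (lt_of_lt_of_le P'.deg (nb_mono (le_joinG _ _ _) _)) (deg_iso e2 (v q'.1))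
  have hvv : e2 (v q'.1) = e1 (v q.1) := hub_unique h2T (by omega)
  have hu1 : e1 (u q.1 1) = e2 (u q'.1 1) := by
    refine mark_spec hdT h2T ?_ ?_ ?_ ?_ ?_ hb'
    · rw [← r1]
      intro h3
      have := P.ne 0 (by omega)
      rw [P.start] at this
      exact this (e1.injective h3)
    · rw [← r1]
      refine e1.map_adj_iff.2 (Or.inl ?_)
      have := P.step 0 (by omega)
      rwa [P.start] at this
    · exact fun h3 => P.ne 1 hK (e1.injective h3)
    · rw [← r2]
      refine e2.map_adj_iff.2 (Or.inl ?_)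
      have := P'.step 0 (by omega)
      rwa [P'.start] at this
    · rw [← hvv]
      exact fun h3 => P'.ne 1 hK (e2.injective h3)
  have hrec := join_rec hK P P' (e1.trans e2.symm)
    (by show e2.symm (e1 (o q.1)) = o q'.1; rw [r1, ← r2]; simp)
    (by show e2.symm (e1 (u q.1 1)) = u q'.1 1; rw [hu1]; simp)
  refine Prod.ext ?_ hrec.1
  refine hsep q q' ht fun x y => ?_
  have h3 := hrec.2 x y
  have h4 : ∀ z, (e1.trans e2.symm) z = (e q').symm (e q z) := fun z => by
    show e2.symm (e1 z) = _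
    rw [hs2, he1]
  rw [h4, h4] at h3
  exact h3

/-- If the ball is small and the degrees are not bounded, then the hub is far away. -/
theorem exists_path {K M n : ℕ} (p : Ex TwoClaws n)
    (hs : Nat.card (ballSet p.1.1 p.1.2 (K + 2)) ≤ M) (hl : ¬ IsLow (M + 7) n p) :
    ∃ v u, Pth p.1.1 p.1.2 v K u := by
  classical
  unfold IsLow at hl
  push Not at hl
  obtain ⟨v, hv⟩ := hl
  have hG := p.2.1
  have h2 : Two p.1.1 v := two_of_hub p.2.1 p.2.2 (by omega)
  have hfar : K + 2 ≤ p.1.1.dist p.1.2 v := by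
    by_contra hlt
    have hsub : (nb p.1.1 v : Set (Fin n)) ⊆ ballSet p.1.1 p.1.2 (K + 2) := by
      intro x hx
      have hx : p.1.1.Adj v x := mem_nb.1 (Finset.mem_coe.1 hx)
      show p.1.1.dist p.1.2 x ≤ K + 2
      have h3 := hG.dist_triangle (u := p.1.2) (v := v) (w := x)
      have h4 : p.1.1.dist v x ≤ 1 := (dist_le (Walk.cons hx Walk.nil)).trans (by simp)
      omega
    have h1 := Set.ncard_le_ncard hsub (Set.toFinite _)
    rw [Set.ncard_coe_finset] at h1
    have h5 : (nb p.1.1 v).card ≤ M := h1.trans hs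
    omega
  obtain ⟨w, hw⟩ := hG.exists_walk_length_eq_dist p.1.2 v
  have hpath : w.IsPath := w.isPath_of_length_eq_dist hw
  have hd : ∀ i, i ≤ K → p.1.1.dist p.1.2 (w.getVert i) ≤ i := by
    intro i _
    have h3 : p.1.1.dist p.1.2 (w.getVert i) ≤ (w.take i).length := dist_le _
    rw [Walk.take_length] at h3
    omega
  refine ⟨v, w.getVert, by omega, h2, Walk.getVert_zero _, ?_, ?_, ?_, ?_⟩
  · intro i hi
    exact w.adj_getVert_succ (by omega)
  · intro i hi h3
    have := hd i hi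
    rw [h3] at this
    omega
  · intro i hi h3
    have h4 := hd i hi
    have h5 := hG.dist_triangle (u := p.1.2) (v := w.getVert i) (w := v)
    have h6 : p.1.1.dist (w.getVert i) v ≤ 1 := (dist_le (Walk.cons h3 Walk.nil)).trans (by simp)
    omega
  · intro i hi j hj hij
    exact hpath.getVert_injOn (by change i ≤ w.length; omega) (by change j ≤ w.length; omega) hij

end Pool.Agent.H49.Hub
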