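import Pool.Agent.H49.Hub.Esc2

/-!
# All mass escapes: large radii
-/

set_option autoImplicit false

namespace Pool.Agent.H49.Hub

open SimpleGraph Filter Topology MeasureTheory Pool.Agent.H265R3.ML

/-- The ball of radius `r` has at most `M` vertices. -/
def SmallR (r M n : ℕ) (p : Ex TwoClaws n) : Prop := Nat.card (ballSet p.1.1 p.1.2 r) ≤ M

theorem size_clsR (r M : ℕ) {n : ℕ} (p : Ex TwoClaws n) :
    RG.size (RG.ball r p.cls) ≤ M ↔ SmallR r M n p := by
  have h : RG.size (RG.ball r p.cls) = Nat.card (ballSet p.1.1 p.1.2 r) :=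
    size_ball_cls p.1.1 p.1.2 p.2.1 r
  rw [h]
  rfl

theorem expL_eqR (r M n : ℕ) : expL TwoClaws n (indF r M) =
    (Nat.card {p : Ex TwoClaws n // SmallR r M n p} : ℝ) / Nat.card (Ex TwoClaws n) := by
  classical
  haveI := Fintype.ofFinite (Ex TwoClaws n)
  unfold expL
  congr 1
  rw [finsum_eq_sum_of_fintype, Nat.card_eq_fintype_card, Fintype.card_subtype,
    Finset.card_filter, Nat.cast_sum]
  refine Finset.sum_congr rfl fun p _ => ?_
  have h : RG.size (RG.ball r p.cls) = Nat.card (ballSet p.1.1 p.1.2 r) :=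
    size_ball_cls p.1.1 p.1.2 p.2.1 r
  unfold indF SmallR
  rw [h]
  push_cast
  rfl

theorem expU_eqR (r M n : ℕ) : expU TwoClaws n (indF r M) =
    (Nat.card {x : unl TwoClaws n // RG.size (RG.ball r x.1) ≤ M} : ℝ) /
      Nat.card (unl TwoClaws n) := by
  classical
  haveI := Fintype.ofFinite (unl TwoClaws n)
  unfold expU
  rw [← Nat.card_coe_set_eq]
  congr 1
  rw [finsum_mem_eq_finite_toFinset_sum _ (unl_finite n), Nat.card_eq_fintype_card,
    Fintype.card_subtype, Finset.card_filter, Nat.cast_sum]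
  rw [← Finset.sum_coe_sort (unl_finite n).toFinset]
  refine Fintype.sum_equiv (Equiv.subtypeEquivRight fun x => Set.Finite.mem_toFinset _) _ _ ?_
  rintro ⟨x, hx⟩
  unfold indF
  simp

theorem smallR_le (K M n : ℕ) (hK : 1 ≤ K) :
    Nat.card {p : Ex TwoClaws n // SmallR (K + 2) M n p} * 2 ^ K ≤
      Nat.card (Ex TwoClaws n) + Nat.card (Low (M + 7) n) * 2 ^ K := by
  classical
  haveI := Fintype.ofFinite (Ex TwoClaws n)
  have h1 : ∀ p : {p : Ex TwoClaws n // SmallR (K + 2) M n p ∧ ¬ IsLow (M + 7) n p},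
      ∃ v u, Pth p.1.1.1 p.1.1.2 v K u := fun p => exists_path p.1 p.2.1 p.2.2
  choose v u hP using h1
  have h3 := path_count hK
    (B := {p : Ex TwoClaws n // SmallR (K + 2) M n p ∧ ¬ IsLow (M + 7) n p})
    (Q := Ex TwoClaws n) (fun p => p.1.1.1) (fun p => p.1.1.2) v u hP (fun T => T.1)
    (fun q => ⟨(joinG q.1.1.1.1 (v q.1) (chosen (u q.1) q.2), q.1.1.1.2),
      q.1.1.2.1.mono (le_joinG _ _ _), not_minor (join_two _ (hP q.1).two)⟩)
    (fun q => SimpleGraph.Iso.refl) (fun q => rfl) (by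
      intro q q' h hadj
      have hr := congrArg (fun r : Ex TwoClaws n => r.1.2) h
      have hg : q.1.1.1.1 = q'.1.1.1.1 := by
        ext x y
        exact hadj x y
      exact Subtype.ext (Subtype.ext (Prod.ext hg hr)))
  have h4 : Nat.card {p : Ex TwoClaws n // SmallR (K + 2) M n p} ≤
      Nat.card {p : Ex TwoClaws n // SmallR (K + 2) M n p ∧ ¬ IsLow (M + 7) n p} +
        Nat.card (Low (M + 7) n) := by
    have h5 : Nat.card (Low (M + 7) n) = Nat.card {p : Ex TwoClaws n // IsLow (M + 7) n p} := rfl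
    rw [h5]
    simp only [Nat.card_eq_fintype_card, Fintype.card_subtype]
    rw [← Finset.card_union_add_card_inter]
    refine le_trans (Finset.card_le_card ?_) (Nat.le_add_right _ _)
    intro p hp
    simp only [Finset.mem_filter, Finset.mem_univ, true_and, Finset.mem_union] at hp ⊢
    by_cases h : IsLow (M + 7) n p
    · exact Or.inr h
    · exact Or.inl ⟨hp, h⟩
  have h6 := Nat.mul_le_mul_right (2 ^ K) h4
  rw [pow_succ, ← mul_assoc] at h3
  rw [add_mul] at h6
  omega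

theorem unl_smallR_le (K M n : ℕ) (hK : 1 ≤ K) :
    Nat.card {x : unl TwoClaws n // RG.size (RG.ball (K + 2) x.1) ≤ M} * 2 ^ K ≤
      Nat.card (unl TwoClaws n) + Nat.card (UL (M + 7) n) * 2 ^ K := by
  classical
  haveI := Fintype.ofFinite (unl TwoClaws n)
  have hrep : ∀ x : {x : unl TwoClaws n // RG.size (RG.ball (K + 2) x.1) ≤ M ∧
      x.1 ∉ UL (M + 7) n}, ∃ p : Ex TwoClaws n, p.cls = x.1.1 := fun x => x.1.2
  choose p hp using hrep
  have h1 : ∀ x : {x : unl TwoClaws n // RG.size (RG.ball (K + 2) x.1) ≤ M ∧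
      x.1 ∉ UL (M + 7) n}, ∃ v u, Pth (p x).1.1 (p x).1.2 v K u := by
    intro x
    refine exists_path (p x) ?_ fun h => x.2.2 ⟨p x, h, hp x⟩
    have := x.2.1
    rwa [← hp x, size_clsR] at this
  choose v u hP using h1
  have hrep' : ∀ t : unl TwoClaws n, ∃ r : Ex TwoClaws n, r.cls = t.1 := fun t => t.2
  choose r hr using hrep'
  let Z : {x : unl TwoClaws n // RG.size (RG.ball (K + 2) x.1) ≤ M ∧ x.1 ∉ UL (M + 7) n} ×
      Finset (Fin (K + 1)) → Ex TwoClaws n := fun q =>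
    ⟨(joinG (p q.1).1.1 (v q.1) (chosen (u q.1) q.2), (p q.1).1.2),
      (p q.1).2.1.mono (le_joinG _ _ _), not_minor (join_two _ (hP q.1).two)⟩
  let tt : {x : unl TwoClaws n // RG.size (RG.ball (K + 2) x.1) ≤ M ∧ x.1 ∉ UL (M + 7) n} ×
      Finset (Fin (K + 1)) → unl TwoClaws n := fun q => ⟨(Z q).cls, ⟨Z q, rfl⟩⟩
  have hiso : ∀ q, ∃ e : (Z q).1.1 ≃g (r (tt q)).1.1, e (Z q).1.2 = (r (tt q)).1.2 := fun q =>
    (cls_iff _ _).1 (hr (tt q)).symm
  choose e he using hiso
  have h3 := path_count hK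
    (B := {x : unl TwoClaws n // RG.size (RG.ball (K + 2) x.1) ≤ M ∧ x.1 ∉ UL (M + 7) n})
    (Q := unl TwoClaws n) (fun x => (p x).1.1) (fun x => (p x).1.2) v u hP (fun t => (r t).1)
    tt e he (by
      intro q q' h hadj
      apply Subtype.ext
      apply Subtype.ext
      rw [← hp q.1, ← hp q'.1, cls_iff]
      refine ⟨⟨(e q).toEquiv.trans (e q').toEquiv.symm, fun {a b} => (hadj a b).symm⟩, ?_⟩
      show (e q').symm (e q (p q.1).1.2) = (p q'.1).1.2
      have h5 : e q (p q.1).1.2 = e q' (p q'.1).1.2 :=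
        (he q).trans ((congrArg (fun t => (r t).1.2) h).trans (he q').symm)
      rw [h5]
      exact (e q').symm_apply_apply _)
  have h4 : Nat.card {x : unl TwoClaws n // RG.size (RG.ball (K + 2) x.1) ≤ M} ≤
      Nat.card {x : unl TwoClaws n // RG.size (RG.ball (K + 2) x.1) ≤ M ∧ x.1 ∉ UL (M + 7) n} +
        Nat.card (UL (M + 7) n) := by
    have h5 : Nat.card {x : unl TwoClaws n // x.1 ∈ UL (M + 7) n} ≤ Nat.card (UL (M + 7) n) :=
      Nat.card_le_card_of_injective (fun x => ⟨x.1.1, x.2⟩) (by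
        intro x y h
        apply Subtype.ext
        apply Subtype.ext
        exact congrArg (fun z : UL (M + 7) n => z.1) h)
    refine le_trans ?_ (Nat.add_le_add_left h5 _)
    simp only [Nat.card_eq_fintype_card, Fintype.card_subtype]
    rw [← Finset.card_union_add_card_inter]
    refine le_trans (Finset.card_le_card ?_) (Nat.le_add_right _ _)
    intro x hx
    simp only [Finset.mem_filter, Finset.mem_univ, true_and, Finset.mem_union] at hx ⊢
    by_cases h : x.1 ∈ UL (M + 7) n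
    · exact Or.inr h
    · exact Or.inl ⟨hx, h⟩
  have h6 := Nat.mul_le_mul_right (2 ^ K) h4
  rw [pow_succ, ← mul_assoc] at h3
  rw [add_mul] at h6
  omega

theorem escape_real {S E L K : ℕ} {ε : ℝ} (hE : (0 : ℝ) < E) (h : S * 2 ^ K ≤ E + L * 2 ^ K)
    (hL : (L : ℝ) ≤ ε * E) : (S : ℝ) / E ≤ 1 / 2 ^ K + ε := by
  have h1 : ((S * 2 ^ K : ℕ) : ℝ) ≤ ((E + L * 2 ^ K : ℕ) : ℝ) := by exact_mod_cast h
  push_cast at h1
  have h2 : (0 : ℝ) < 2 ^ K := by positivity
  rw [div_le_iff₀ hE, add_mul, one_div, inv_mul_eq_div]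
  have h3 : (S : ℝ) ≤ E / 2 ^ K + L := by
    have h4 : (S : ℝ) ≤ (E + L * 2 ^ K) / 2 ^ K := by
      rw [le_div_iff₀ h2]
      exact h1
    rwa [add_div, mul_div_assoc, div_self h2.ne', mul_one] at h4
  linarith

/-- Both models: the ball of radius `K + 2` is large with limiting probability at least
`1 - 2 ^ (-K)`. -/
theorem escape (K M : ℕ) (ε : ℝ) (hε : 0 < ε) : ∀ᶠ n : ℕ in atTop,
    expL TwoClaws n (indF (K + 2) M) ≤ 1 / 2 ^ K + ε ∧
      expU TwoClaws n (indF (K + 2) M) ≤ 1 / 2 ^ K + ε := by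
  rcases Nat.eq_zero_or_pos K with rfl | hK
  · filter_upwards [lab_escape M ε hε, unl_escape M ε hε] with n h1 h2
    have h3 : (1 : ℝ) / 2 ≤ 1 / 2 ^ 0 := by norm_num
    exact ⟨h1.trans (by linarith), h2.trans (by linarith)⟩
  · filter_upwards [low_rare (M + 7) ε hε, UL_rare (M + 7) ε hε, eventually_ge_atTop 1]
      with n h1 h2 hn
    obtain ⟨p⟩ := ex_nonempty n hn
    haveI : Nonempty (Ex TwoClaws n) := ⟨p⟩
    haveI : Nonempty (unl TwoClaws n) := ⟨⟨p.cls, p, rfl⟩⟩
    rw [expL_eqR, expU_eqR]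
    exact ⟨escape_real (by exact_mod_cast Nat.card_pos) (smallR_le K M n hK) h1,
      escape_real (by exact_mod_cast Nat.card_pos) (unl_smallR_le K M n hK) h2⟩

end Pool.Agent.H49.Hub
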