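import Pool.Agent.H49.Hub.Struct

/-!
# Members with bounded degrees are rare
-/

set_option autoImplicit false

namespace Pool.Agent.H49.Hub

open SimpleGraph Filter Topology Pool.Agent.H265R3.ML

/-- The vertices in or next to the range of `X`. -/
def RT {V : Type} (G : SimpleGraph V) (X : Fin 4 → V) : Set V :=
  {w | w ∈ Set.range X ∨ ∃ i, G.Adj (X i) w}

/-- The graph in which all edges at the vertices `X i` are replaced by edges from `X 0` to the
vertices in or next to the range of `X` and to the vertices of `A`. -/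
def hubG {V : Type} (G : SimpleGraph V) (X : Fin 4 → V) (A : Set V) : SimpleGraph V where
  Adj x y := x ≠ y ∧ ((x ∉ Set.range X ∧ y ∉ Set.range X ∧ G.Adj x y) ∨
    (x = X 0 ∧ (y ∈ RT G X ∨ y ∈ A)) ∨ (y = X 0 ∧ (x ∈ RT G X ∨ x ∈ A)))
  symm := ⟨fun x y h => by
    refine ⟨h.1.symm, ?_⟩
    rcases h.2 with ⟨a, b, c⟩ | h | h
    · exact Or.inl ⟨b, a, c.symm⟩
    · exact Or.inr (Or.inr h)
    · exact Or.inr (Or.inl h)⟩
  loopless := ⟨fun _ h => h.1 rfl⟩

variable {V : Type}

theorem hub_two {G : SimpleGraph V} {X : Fin 4 → V} (A : Set V) (hX : Off G X) :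
    Two (hubG G X A) (X 0) := by
  intro w hw a b c ha hb hc hab hac hbc h1 h2 h3
  have key : ∀ z, z ≠ X 0 → (hubG G X A).Adj w z →
      w ∉ Set.range X ∧ z ∉ Set.range X ∧ G.Adj w z := by
    intro z hz h
    rcases h.2 with h | h | h
    · exact h
    · exact absurd h.1 hw
    · exact absurd h.1 hz
  obtain ⟨w1, a1, a2⟩ := key a ha h1
  obtain ⟨-, b1, b2⟩ := key b hb h2
  obtain ⟨-, c1, c2⟩ := key c hc h3
  exact hX w w1 a b c a1 b1 c1 hab hac hbc a2 b2 c2

theorem hub_reach {G : SimpleGraph V} {X : Fin 4 → V} (A : Set V) (x : V) (h : x ∈ RT G X) :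
    (hubG G X A).Reachable (X 0) x := by
  by_cases hx : x = X 0
  · rw [hx]
  · exact Adj.reachable ⟨Ne.symm hx, Or.inr (Or.inl ⟨rfl, Or.inl h⟩)⟩

theorem hub_conn {G : SimpleGraph V} {X : Fin 4 → V} (A : Set V) (hG : G.Connected) :
    (hubG G X A).Connected := by
  rw [connected_iff_exists_forall_reachable]
  refine ⟨X 0, fun x => ?_⟩
  have key : ∀ x y : V, ∀ _ : G.Walk x y, y ∈ Set.range X →
      (hubG G X A).Reachable (X 0) x := by
    intro x y p
    induction p with
    | nil => exact fun h => hub_reach A _ (Or.inl h)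
    | @cons x z y h p ih =>
      intro hy
      by_cases hx : x ∈ Set.range X
      · exact hub_reach A _ (Or.inl hx)
      · by_cases hz : z ∈ Set.range X
        · obtain ⟨i, rfl⟩ := hz
          exact hub_reach A _ (Or.inr ⟨i, h.symm⟩)
        · exact (ih hy).trans (Adj.reachable ⟨h.ne.symm, Or.inl ⟨hz, hx, h.symm⟩⟩)
  obtain ⟨p⟩ := hG x (X 0)
  exact key x (X 0) p ⟨0, rfl⟩

theorem hub_inj {G G' : SimpleGraph V} {X : Fin 4 → V} {A A' : Set V}
    (h : hubG G X A = hubG G' X A') (hE : ∀ i y, G.Adj (X i) y ↔ G'.Adj (X i) y)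
    (hA : ∀ w ∈ RT G X, (w ∈ A ↔ w ∈ A')) : G = G' ∧ A = A' := by
  have hRT : RT G X = RT G' X := by
    ext w
    simp only [RT, Set.mem_setOf_eq, hE]
  have h1 : ∀ (G : SimpleGraph V) (A : Set V) (x y : V), x ∉ Set.range X → y ∉ Set.range X →
      ((hubG G X A).Adj x y ↔ G.Adj x y) := by
    intro G A x y hx hy
    constructor
    · rintro ⟨-, h | h | h⟩
      · exact h.2.2
      · exact absurd ⟨0, h.1.symm⟩ hx
      · exact absurd ⟨0, h.1.symm⟩ hy
    · intro h
      exact ⟨h.ne, Or.inl ⟨hx, hy, h⟩⟩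
  have h2 : ∀ (G : SimpleGraph V) (A : Set V) (w : V), w ∉ RT G X →
      ((hubG G X A).Adj (X 0) w ↔ w ∈ A) := by
    intro G A w hw
    have hw0 : w ≠ X 0 := fun h => hw (Or.inl ⟨0, h.symm⟩)
    constructor
    · rintro ⟨-, h | h | h⟩
      · exact absurd ⟨0, rfl⟩ h.1
      · exact h.2.resolve_left hw
      · exact absurd h.1 hw0
    · intro h
      exact ⟨hw0.symm, Or.inr (Or.inl ⟨rfl, Or.inr h⟩)⟩
  constructor
  · ext x y
    by_cases hx : x ∈ Set.range X
    · obtain ⟨i, rfl⟩ := hx
      exact hE i y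
    · by_cases hy : y ∈ Set.range X
      · obtain ⟨i, rfl⟩ := hy
        rw [G.adj_comm, G'.adj_comm]
        exact hE i x
      · rw [← h1 G A x y hx hy, ← h1 G' A' x y hx hy, h]
  · ext w
    by_cases hw : w ∈ RT G X
    · exact hA w hw
    · rw [← h2 G A w hw, ← h2 G' A' w (hRT ▸ hw), h]

/-- The number of subsets with at most `k` elements. -/
theorem card_small {α : Type} [Finite α] (k : ℕ) :
    Nat.card {F : Finset α // F.card ≤ k} ≤ (Nat.card α + 1) ^ k := by
  classical
  haveI := Fintype.ofFinite α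
  have : Nat.card (Fin k → Option α) = (Nat.card α + 1) ^ k := by
    rw [Nat.card_fun, Nat.card_eq_fintype_card (α := Option α), Fintype.card_option,
      Nat.card_eq_fintype_card (α := α)]
    simp
  rw [← this]
  refine Nat.card_le_card_of_injective (fun F => fun i : Fin k => F.1.toList[(i : ℕ)]?) ?_
  rintro ⟨F, hF⟩ ⟨F', hF'⟩ h
  apply Subtype.ext
  have h' : F.toList = F'.toList := by
    apply List.ext_getElem?
    intro i
    by_cases hi : i < k
    · exact congrFun h ⟨i, hi⟩
    · rw [List.getElem?_eq_none (by rw [Finset.length_toList]; omega),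
        List.getElem?_eq_none (by rw [Finset.length_toList]; omega)]
  show F = F'
  rw [← Finset.toList_toFinset F, ← Finset.toList_toFinset F', h']

instance (n : ℕ) : Finite (Ex TwoClaws n) := by unfold Ex; infer_instance

/-- The members with all degrees at most `m`. -/
def Low (m n : ℕ) : Type := {p : Ex TwoClaws n // ∀ x, (nb p.1.1 x).card ≤ m}

instance (m n : ℕ) : Finite (Low m n) := by unfold Low; infer_instance

open Classical in
theorem low_count (m n : ℕ) :
    Nat.card (Low m n) * 2 ^ n ≤ Nat.card (Ex TwoClaws n) *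
      (n ^ 4 * ((4 * n + 1) ^ (4 * m) * (n + 1) ^ (4 * m + 4))) := by
  have hoff : ∀ p : Low m n, ∃ X : Fin 4 → Fin n, Off p.1.1.1 X := fun p =>
    exists_off p.1.2.1 p.1.2.2
  choose X hX using hoff
  let EX : Low m n → Finset (Fin 4 × Fin n) := fun p =>
    Finset.univ.filter fun q => p.1.1.1.Adj (X p q.1) q.2
  have hEX : ∀ p, (EX p).card ≤ 4 * m := by
    intro p
    have hsub : EX p ⊆ Finset.univ.biUnion fun i : Fin 4 =>
        (nb p.1.1.1 (X p i)).image fun y => (i, y) := by
      rintro ⟨i, y⟩ h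
      simp only [EX, Finset.mem_filter, Finset.mem_univ, true_and] at h
      simp only [Finset.mem_biUnion, Finset.mem_univ, true_and, Finset.mem_image, mem_nb]
      exact ⟨i, y, h, rfl⟩
    refine (Finset.card_le_card hsub).trans (Finset.card_biUnion_le.trans ?_)
    refine (Finset.sum_le_card_nsmul _ _ m fun i _ => Finset.card_image_le.trans (p.2 _)).trans ?_
    simp
  let AX : Low m n × Finset (Fin n) → Finset (Fin n) := fun q =>
    q.2.filter fun w => w ∈ RT q.1.1.1.1 (X q.1)
  have hAX : ∀ q, (AX q).card ≤ 4 * m + 4 := by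
    intro q
    have hsub : AX q ⊆ (Finset.univ.biUnion fun i : Fin 4 => nb q.1.1.1.1 (X q.1 i)) ∪
        Finset.univ.image (X q.1) := by
      intro w h
      simp only [AX, Finset.mem_filter] at h
      simp only [Finset.mem_union, Finset.mem_biUnion, Finset.mem_univ, true_and,
        Finset.mem_image, mem_nb]
      rcases h.2 with ⟨i, hi⟩ | ⟨i, hi⟩
      · exact Or.inr ⟨i, hi⟩
      · exact Or.inl ⟨i, hi⟩
    refine (Finset.card_le_card hsub).trans ((Finset.card_union_le _ _).trans ?_)
    have h1 : (Finset.univ.biUnion fun i : Fin 4 => nb q.1.1.1.1 (X q.1 i)).card ≤ 4 * m := by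
      refine Finset.card_biUnion_le.trans ?_
      refine (Finset.sum_le_card_nsmul _ _ m fun i _ => q.1.2 _).trans ?_
      simp
    have h2 : (Finset.univ.image (X q.1)).card ≤ 4 := Finset.card_image_le.trans (by simp)
    omega
  have hcard : Nat.card (Low m n × Finset (Fin n)) = Nat.card (Low m n) * 2 ^ n := by
    rw [Nat.card_prod, Nat.card_eq_fintype_card (α := Finset (Fin n)), Fintype.card_finset,
      Fintype.card_fin]
  rw [← hcard]
  refine (Nat.card_le_card_of_injective (β := Ex TwoClaws n × ((Fin 4 → Fin n) ×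
    ({F : Finset (Fin 4 × Fin n) // F.card ≤ 4 * m} × {F : Finset (Fin n) // F.card ≤ 4 * m + 4})))
    (fun q => (⟨(hubG q.1.1.1.1 (X q.1) (q.2 : Set (Fin n)), q.1.1.1.2),
      hub_conn _ q.1.1.2.1, not_minor (hub_two _ (hX q.1))⟩, X q.1, ⟨EX q.1, hEX q.1⟩,
      ⟨AX q, hAX q⟩)) ?_).trans ?_
  · rintro ⟨p, A⟩ ⟨p', A'⟩ h
    have hg : hubG p.1.1.1 (X p) (A : Set (Fin n)) = hubG p'.1.1.1 (X p') (A' : Set (Fin n)) :=
      congrArg (fun q => q.1.1.1) h
    have hr : p.1.1.2 = p'.1.1.2 := congrArg (fun q => q.1.1.2) h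
    have hx : X p = X p' := congrArg (fun q => q.2.1) h
    have he : EX p = EX p' := congrArg (fun q => q.2.2.1.1) h
    have ha : AX (p, A) = AX (p', A') := congrArg (fun q => q.2.2.2.1) h
    have hE : ∀ i y, p.1.1.1.Adj (X p i) y ↔ p'.1.1.1.Adj (X p i) y := by
      intro i y
      have h1 : (i, y) ∈ EX p ↔ (i, y) ∈ EX p' := by rw [he]
      simp only [EX, Finset.mem_filter, Finset.mem_univ, true_and] at h1
      rw [← hx] at h1
      exact h1
    have hRT : RT p.1.1.1 (X p) = RT p'.1.1.1 (X p) := by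
      ext w
      simp only [RT, Set.mem_setOf_eq, hE]
    rw [← hx] at hg
    have hfin := hub_inj hg hE (by
      intro w hw
      have h1 : w ∈ AX (p, A) ↔ w ∈ AX (p', A') := by rw [ha]
      simp only [AX, Finset.mem_filter] at h1
      rw [← hx, ← hRT] at h1
      simp only [hw, and_true] at h1
      exact h1)
    refine Prod.ext ?_ (Finset.coe_injective hfin.2)
    exact Subtype.ext (Subtype.ext (Prod.ext hfin.1 hr))
  · rw [Nat.card_prod, Nat.card_prod, Nat.card_prod]
    gcongr
    · rw [Nat.card_fun]; simp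
    · refine (card_small _).trans (le_of_eq ?_)
      simp
    · refine (card_small _).trans (le_of_eq ?_)
      simp

end Pool.Agent.H49.Hub
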