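import Pool.Agent.H49.Hub.Few

/-!
# Joining the root to the hub; the labelled model
-/

set_option autoImplicit false

namespace Pool.Agent.H49.Hub

open SimpleGraph Filter Topology Pool.Agent.H265R3.ML

/-- If the root is a vertex `v` or next to it, then the ball of radius `2` contains all
neighbours of `v`. -/
theorem ball_large {n : ℕ} {G : SimpleGraph (Fin n)} {o v : Fin n} (h : o = v ∨ G.Adj o v) :
    (nb G v).card ≤ Nat.card (ballSet G o 2) := by
  have hsub : (nb G v : Set (Fin n)) ⊆ ballSet G o 2 := by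
    intro x hx
    have hx : G.Adj v x := mem_nb.1 (Finset.mem_coe.1 hx)
    show G.dist o x ≤ 2
    rcases h with rfl | h
    · exact (dist_le (Walk.cons hx Walk.nil)).trans (by simp)
    · exact (dist_le (Walk.cons h (Walk.cons hx Walk.nil))).trans (by simp)
  have h1 := Set.ncard_le_ncard hsub (Set.toFinite _)
  rwa [Set.ncard_coe_finset] at h1

theorem nb_mono {V : Type} [Fintype V] {G G' : SimpleGraph V} (h : G ≤ G') (v : V) :
    (nb G v).card ≤ (nb G' v).card :=
  Finset.card_le_card fun _ hx => mem_nb.2 (h (mem_nb.1 hx))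

theorem two_sup {V : Type} {G : SimpleGraph V} {v : V} (o : V) (h : Two G v) :
    Two (G ⊔ edge v o) v := by
  intro w hw a b c ha hb hc hab hac hbc h1 h2 h3
  have key : ∀ z, z ≠ v → (G ⊔ edge v o).Adj w z → G.Adj w z := by
    intro z hz h
    rw [sup_adj, edge_adj] at h
    rcases h with h | ⟨⟨h, -⟩ | ⟨-, h⟩, -⟩
    · exact h
    · exact absurd h hw
    · exact absurd h hz
  exact h w hw a b c ha hb hc hab hac hbc (key a ha h1) (key b hb h2) (key c hc h3)

theorem hub_unique {V : Type} [Fintype V] {G : SimpleGraph V} {v w : V} (h : Two G v)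
    (hw : 4 ≤ (nb G w).card) : w = v := by
  classical
  by_contra hne
  have h3 : 3 ≤ ((nb G w).erase v).card := by
    have := Finset.pred_card_le_card_erase (s := nb G w) (a := v)
    omega
  obtain ⟨a, ha, b, hb, c, hc, hab, hac, hbc⟩ := pick3 h3
  rw [Finset.mem_erase, mem_nb] at ha hb hc
  exact h w hne a b c ha.1 hb.1 hc.1 hab hac hbc ha.2 hb.2 hc.2

/-- The ball of radius `2` has at most `M` vertices. -/
def IsSmall (M n : ℕ) (p : Ex TwoClaws n) : Prop := Nat.card (ballSet p.1.1 p.1.2 2) ≤ M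

/-- All degrees are at most `m`. -/
def IsLow (m n : ℕ) (p : Ex TwoClaws n) : Prop := ∀ x, (nb p.1.1 x).card ≤ m

/-- The hub is joined to the root. -/
def flip {n : ℕ} (p : Ex TwoClaws n) (v : Fin n) (hv : Two p.1.1 v) : Ex TwoClaws n :=
  ⟨(p.1.1 ⊔ edge v p.1.2, p.1.2), p.2.1.mono le_sup_left, not_minor (two_sup _ hv)⟩

theorem exists_hub {M n : ℕ} (p : Ex TwoClaws n) (hs : IsSmall M n p) (hl : ¬ IsLow (M + 7) n p) :
    ∃ v, M + 7 < (nb p.1.1 v).card ∧ Two p.1.1 v ∧ p.1.2 ≠ v ∧ ¬ p.1.1.Adj p.1.2 v := by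
  unfold IsLow at hl
  push Not at hl
  obtain ⟨v, hv⟩ := hl
  refine ⟨v, hv, two_of_hub p.2.1 p.2.2 (by omega), fun h => ?_, fun h => ?_⟩
  · have := ball_large (G := p.1.1) (o := p.1.2) (v := v) (Or.inl h)
    unfold IsSmall at hs
    omega
  · have := ball_large (G := p.1.1) (o := p.1.2) (v := v) (Or.inr h)
    unfold IsSmall at hs
    omega

theorem flip_large {M n : ℕ} (p : Ex TwoClaws n) (v : Fin n) (hv : M + 7 < (nb p.1.1 v).card)
    (h2 : Two p.1.1 v) (hne : p.1.2 ≠ v) : ¬ IsSmall M n (flip p v h2) := by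
  unfold IsSmall
  have h1 : (flip p v h2).1.1.Adj (flip p v h2).1.2 v := by
    show (p.1.1 ⊔ edge v p.1.2).Adj p.1.2 v
    rw [sup_adj, edge_adj]
    exact Or.inr ⟨Or.inr ⟨rfl, rfl⟩, hne⟩
  have h3 := ball_large (Or.inr h1)
  have h4 : (nb p.1.1 v).card ≤ (nb (flip p v h2).1.1 v).card := nb_mono le_sup_left v
  omega

/-- Isomorphisms between flipped graphs come from isomorphisms of the graphs. -/
theorem flip_iso {V W : Type} [Fintype V] [Fintype W] {G : SimpleGraph V} {G' : SimpleGraph W}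
    {v o : V} {v' o' : W} (e : V ≃ W)
    (he : ∀ x y, (G ⊔ edge v o).Adj x y ↔ (G' ⊔ edge v' o').Adj (e x) (e y)) (heo : e o = o')
    (h2' : Two G' v') (hv : 7 < (nb G v).card)
    (hvo : ¬ G.Adj o v) (hvo' : ¬ G'.Adj o' v') (x y : V) :
    G.Adj x y ↔ G'.Adj (e x) (e y) := by
  classical
  have hev : e v = v' := by
    refine hub_unique (two_sup o' h2') ?_
    have h1 : (nb (G ⊔ edge v o) v).card ≤ (nb (G' ⊔ edge v' o') (e v)).card := by
      rw [← Finset.card_map e.toEmbedding]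
      apply Finset.card_le_card
      intro z hz
      obtain ⟨u, hu, rfl⟩ := Finset.mem_map.1 hz
      exact mem_nb.2 ((he v u).1 (mem_nb.1 hu))
    have h2 := nb_mono (le_sup_left : G ≤ G ⊔ edge v o) v
    omega
  have key : ∀ {V : Type} (G : SimpleGraph V) (v o x y : V), ¬ G.Adj o v →
      (G.Adj x y ↔ (G ⊔ edge v o).Adj x y ∧ ¬ ((x = v ∧ y = o) ∨ (x = o ∧ y = v))) := by
    intro V G v o x y h
    rw [sup_adj, edge_adj]
    constructor
    · intro h1
      refine ⟨Or.inl h1, ?_⟩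
      rintro (⟨rfl, rfl⟩ | ⟨rfl, rfl⟩)
      · exact h h1.symm
      · exact h h1
    · rintro ⟨h1 | h1, h2⟩
      · exact h1
      · exact absurd h1.1 h2
  rw [key G v o x y hvo, key G' v' o' (e x) (e y) hvo', he, ← hev, ← heo]
  simp only [EmbeddingLike.apply_eq_iff_eq]

theorem small_le (M n : ℕ) :
    2 * Nat.card {p : Ex TwoClaws n // IsSmall M n p} ≤
      Nat.card (Ex TwoClaws n) + Nat.card (Low (M + 7) n) := by
  classical
  haveI := Fintype.ofFinite (Ex TwoClaws n)
  have h1 : ∀ p : {p : Ex TwoClaws n // IsSmall M n p ∧ ¬ IsLow (M + 7) n p},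
      ∃ v, M + 7 < (nb p.1.1.1 v).card ∧ Two p.1.1.1 v ∧ p.1.1.2 ≠ v ∧
        ¬ p.1.1.1.Adj p.1.1.2 v := fun p => exists_hub p.1 p.2.1 p.2.2
  choose v hv h2 hne hna using h1
  have h3 : Nat.card {p : Ex TwoClaws n // IsSmall M n p ∧ ¬ IsLow (M + 7) n p} ≤
      Nat.card {p : Ex TwoClaws n // ¬ IsSmall M n p} := by
    refine Nat.card_le_card_of_injective (fun p => ⟨flip p.1 (v p) (h2 p),
      flip_large p.1 (v p) (hv p) (h2 p) (hne p)⟩) ?_
    intro p q h
    have h' : flip p.1 (v p) (h2 p) = flip q.1 (v q) (h2 q) := congrArg Subtype.val h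
    have hg : p.1.1.1 ⊔ edge (v p) p.1.1.2 = q.1.1.1 ⊔ edge (v q) q.1.1.2 :=
      congrArg (fun r => r.1.1) h'
    have hr : p.1.1.2 = q.1.1.2 := congrArg (fun r => r.1.2) h'
    have key := flip_iso (G := p.1.1.1) (G' := q.1.1.1) (v := v p) (o := p.1.1.2) (v' := v q)
      (o' := q.1.1.2) (Equiv.refl _) (by intro x y; rw [hg]; rfl) hr (h2 q)
      (by have := hv p; omega) (hna p) (hna q)
    apply Subtype.ext
    apply Subtype.ext
    refine Prod.ext ?_ hr
    ext x y
    exact key x y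
  have h4 : Nat.card {p : Ex TwoClaws n // IsSmall M n p} ≤
      Nat.card {p : Ex TwoClaws n // IsSmall M n p ∧ ¬ IsLow (M + 7) n p} +
        Nat.card (Low (M + 7) n) := by
    have h5 : Nat.card (Low (M + 7) n) = Nat.card {p : Ex TwoClaws n // IsLow (M + 7) n p} := rfl
    rw [h5]
    simp only [Nat.card_eq_fintype_card, Fintype.card_subtype]
    rw [← Finset.card_union_add_card_inter]
    refine le_trans (Finset.card_le_card ?_) (Nat.le_add_right _ _)
    intro p hp
    simp only [Finset.mem_filter, Finset.mem_univ, true_and, Finset.mem_union] at hp ⊢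
    by_cases h : IsLow (M + 7) n p
    · exact Or.inr h
    · exact Or.inl ⟨hp, h⟩
  have h6 : Nat.card {p : Ex TwoClaws n // IsSmall M n p} +
      Nat.card {p : Ex TwoClaws n // ¬ IsSmall M n p} = Nat.card (Ex TwoClaws n) := by
    simp only [Nat.card_eq_fintype_card]
    rw [Fintype.card_subtype_compl]
    have := Fintype.card_subtype_le (fun p : Ex TwoClaws n => IsSmall M n p)
    omega
  omega

end Pool.Agent.H49.Hub
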