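import Pool.Agent.H49.Hub.Basic

/-!
# Two disjoint claws in a connected graph give a minor of the family
-/

set_option autoImplicit false

namespace Pool.Agent.H49.Hub

open SimpleGraph Filter Topology Pool.Agent.H265R3.ML

theorem minor_of_claws {V : Type} {G : SimpleGraph V} (hG : G.Connected)
    (c : Fin 8 → V) (hc : Function.Injective c)
    (h1 : G.Adj (c 0) (c 1)) (h2 : G.Adj (c 0) (c 2)) (h3 : G.Adj (c 0) (c 3))
    (h5 : G.Adj (c 4) (c 5)) (h6 : G.Adj (c 4) (c 6)) (h7 : G.Adj (c 4) (c 7)) :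
    ∃ H ∈ TwoClaws, IsMinor H.2 G := by
  classical
  obtain ⟨⟨i, j⟩, hij, hmin⟩ := Finset.exists_min_image
    (Finset.univ.filter fun q : Fin 8 × Fin 8 => q.1.val < 4 ∧ 4 ≤ q.2.val)
    (fun q => G.dist (c q.1) (c q.2)) ⟨(0, 4), by simp⟩
  simp only [Finset.mem_filter, Finset.mem_univ, true_and] at hij hmin
  obtain ⟨hi, hj⟩ := hij
  obtain ⟨p, hp⟩ := hG.exists_walk_length_eq_dist (c i) (c j)
  have hne : i ≠ j := fun h => by rw [h] at hi; omega
  have hd : 0 < p.length := by
    rw [hp]
    exact hG.pos_dist_of_ne (fun h => hne (hc h))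
  set P : Set V := {z | ∃ t < p.length, p.getVert t = z} with hP
  have hPc : ∀ k, k ≠ i → c k ∉ P := by
    rintro k hk ⟨t, ht, htk⟩
    by_cases hk4 : k.val < 4
    · have h := hmin (k, j) ⟨hk4, hj⟩
      simp only at h
      have h' : G.dist (p.getVert t) (c j) ≤ (p.drop t).length := dist_le _
      rw [Walk.drop_length, htk] at h'
      have ht0 : t ≠ 0 := by
        rintro rfl
        rw [Walk.getVert_zero] at htk
        exact hk (hc htk).symm
      omega
    · have h := hmin (i, k) ⟨hi, by show 4 ≤ k.val; omega⟩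
      simp only at h
      have h' : G.dist (c i) (p.getVert t) ≤ (p.take t).length := dist_le _
      rw [Walk.take_length, htk] at h'
      omega
  set B : Fin 8 → Set V := fun k => if k = i then P else {c k} with hB
  have hcB : ∀ k, c k ∈ B k := by
    intro k
    simp only [hB]
    split_ifs with h
    · exact ⟨0, hd, by rw [Walk.getVert_zero, h]⟩
    · rfl
  have hBi : B i = P := by simp [hB]
  have hBj : ∀ k, k ≠ i → B k = {c k} := fun k h => by simp [hB, h]
  set H : SimpleGraph (Fin 8) :=
    { Adj := fun a b => a ≠ b ∧ ∃ x ∈ B a, ∃ y ∈ B b, G.Adj x y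
      symm := ⟨fun _ _ h => ⟨h.1.symm, by
        obtain ⟨-, x, hx, y, hy, hxy⟩ := h
        exact ⟨y, hy, x, hx, hxy.symm⟩⟩⟩
      loopless := ⟨fun _ h => h.1 rfl⟩ } with hH
  have hadj : ∀ a b, a ≠ b → G.Adj (c a) (c b) → H.Adj a b := fun a b hab h =>
    ⟨hab, _, hcB a, _, hcB b, h⟩
  have hclaws : Claws H := ⟨⟨hadj 0 1 (by decide) h1, hadj 0 2 (by decide) h2,
    hadj 0 3 (by decide) h3⟩, hadj 4 5 (by decide) h5, hadj 4 6 (by decide) h6,
    hadj 4 7 (by decide) h7⟩
  have hHij : H.Adj i j := by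
    refine ⟨hne, p.getVert (p.length - 1), ?_, c j, hcB j, ?_⟩
    · rw [hBi]
      exact ⟨p.length - 1, by omega, rfl⟩
    · have h := p.adj_getVert_succ (i := p.length - 1) (by omega)
      rw [show p.length - 1 + 1 = p.length by omega, Walk.getVert_length] at h
      exact h
  have hr1 : ∀ k : Fin 8, k.val < 4 → H.Reachable 0 k := by
    intro k hk
    have : k = 0 ∨ k = 1 ∨ k = 2 ∨ k = 3 := by
      revert k; decide
    rcases this with rfl | rfl | rfl | rfl
    · exact Reachable.refl _
    · exact hclaws.1.1.reachable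
    · exact hclaws.1.2.1.reachable
    · exact hclaws.1.2.2.reachable
  have hr2 : ∀ k : Fin 8, 4 ≤ k.val → H.Reachable 4 k := by
    intro k hk
    have : k = 4 ∨ k = 5 ∨ k = 6 ∨ k = 7 := by
      revert k; decide
    rcases this with rfl | rfl | rfl | rfl
    · exact Reachable.refl _
    · exact hclaws.2.1.reachable
    · exact hclaws.2.2.1.reachable
    · exact hclaws.2.2.2.reachable
  have h04 : H.Reachable 0 4 := ((hr1 i hi).trans hHij.reachable).trans (hr2 j hj).symm
  have hHc : H.Connected := by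
    rw [connected_iff_exists_forall_reachable]
    refine ⟨0, fun k => ?_⟩
    by_cases hk : k.val < 4
    · exact hr1 k hk
    · exact h04.trans (hr2 k (by omega))
  refine ⟨⟨8, H⟩, ⟨H, hHc, hclaws, rfl⟩, B, ?_, ?_, fun a b h => h.2⟩
  · intro k
    by_cases hk : k = i
    · rw [hk, hBi, connected_iff_exists_forall_reachable]
      have h0 : p.getVert 0 ∈ P := ⟨0, hd, rfl⟩
      refine ⟨⟨p.getVert 0, h0⟩, ?_⟩
      rintro ⟨z, t, ht, rfl⟩
      induction t with
      | zero => exact Reachable.refl _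
      | succ t ih =>
        have h := ih (by omega)
        refine h.trans (Adj.reachable ?_)
        exact p.adj_getVert_succ (by omega)
    · rw [hBj k hk, connected_iff_exists_forall_reachable]
      refine ⟨⟨c k, rfl⟩, ?_⟩
      rintro ⟨x, hx⟩
      have hx' : x = c k := hx
      subst hx'
      exact Reachable.refl _
  · intro a b hab
    by_cases ha : a = i
    · rw [ha, hBi, hBj b (fun h => hab (ha.trans h.symm))]
      exact Set.disjoint_singleton_right.2 (hPc b (fun h => hab (ha.trans h.symm)))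
    · by_cases hb : b = i
      · rw [hb, hBi, hBj a ha]
        exact Set.disjoint_singleton_left.2 (hPc a ha)
      · rw [hBj a ha, hBj b hb]
        exact Set.disjoint_singleton.2 (fun h => hab (hc h))

theorem no_two_claws {V : Type} {G : SimpleGraph V} (hG : G.Connected)
    (hS : ∀ H ∈ TwoClaws, ¬ IsMinor H.2 G) (u a b c w d e f : V)
    (hn : [u, a, b, c, w, d, e, f].Nodup)
    (h1 : G.Adj u a) (h2 : G.Adj u b) (h3 : G.Adj u c)
    (h5 : G.Adj w d) (h6 : G.Adj w e) (h7 : G.Adj w f) : False := by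
  have hinj : Function.Injective (fun k : Fin 8 => [u, a, b, c, w, d, e, f].get k) :=
    List.nodup_iff_injective_get.1 hn
  obtain ⟨H, hH, hm⟩ := minor_of_claws hG _ hinj h1 h2 h3 h5 h6 h7
  exact hS H hH hm

end Pool.Agent.H49.Hub
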