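import Pool.Agent.H49.Hub.Flip

/-!
# The labelled model
-/

set_option autoImplicit false

namespace Pool.Agent.H49.Hub

open SimpleGraph Filter Topology MeasureTheory Pool.Agent.H265R3.ML

theorem rare (a b : ℕ → ℕ) (C K : ℕ) (h : ∀ n, 1 ≤ n → a n * 2 ^ n ≤ b n * (C * n) ^ K) (ε : ℝ)
    (hε : 0 < ε) : ∀ᶠ n : ℕ in atTop, (a n : ℝ) ≤ ε * b n := by
  have h1 := (tendsto_pow_const_div_const_pow_of_one_lt K (r := (2 : ℝ)) (by norm_num)).const_mul
    ((C : ℝ) ^ K)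
  rw [mul_zero] at h1
  filter_upwards [h1.eventually (gt_mem_nhds hε), eventually_ge_atTop 1] with n hn hn1
  have h2 : ((a n * 2 ^ n : ℕ) : ℝ) ≤ ((b n * (C * n) ^ K : ℕ) : ℝ) := by exact_mod_cast h n hn1
  push_cast at h2
  have h3 : (0 : ℝ) < 2 ^ n := by positivity
  have h4 : (a n : ℝ) ≤ b n * ((C : ℝ) ^ K * ((n : ℝ) ^ K / 2 ^ n)) := by
    rw [← mul_div_assoc, ← mul_div_assoc, le_div_iff₀ h3, ← mul_pow]
    exact h2
  refine h4.trans ?_
  rw [mul_comm ε]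
  exact mul_le_mul_of_nonneg_left hn.le (Nat.cast_nonneg _)

theorem low_rare (m : ℕ) (ε : ℝ) (hε : 0 < ε) :
    ∀ᶠ n : ℕ in atTop, (Nat.card (Low m n) : ℝ) ≤ ε * Nat.card (Ex TwoClaws n) := by
  refine rare _ _ 5 (8 * m + 8) (fun n hn => (low_count m n).trans ?_) ε hε
  refine Nat.mul_le_mul_left _ ?_
  calc n ^ 4 * ((4 * n + 1) ^ (4 * m) * (n + 1) ^ (4 * m + 4))
      ≤ (5 * n) ^ 4 * ((5 * n) ^ (4 * m) * (5 * n) ^ (4 * m)) * (5 * n) ^ 4 := by
        rw [pow_add (n + 1), mul_assoc, mul_assoc]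
        have h1 : n ≤ 5 * n := by omega
        have h2 : 4 * n + 1 ≤ 5 * n := by omega
        have h3 : n + 1 ≤ 5 * n := by omega
        gcongr
    _ = (5 * n) ^ (8 * m + 8) := by ring

theorem expL_eq (M n : ℕ) : expL TwoClaws n (indF 2 M) =
    (Nat.card {p : Ex TwoClaws n // IsSmall M n p} : ℝ) / Nat.card (Ex TwoClaws n) := by
  classical
  haveI := Fintype.ofFinite (Ex TwoClaws n)
  unfold expL
  congr 1
  rw [finsum_eq_sum_of_fintype, Nat.card_eq_fintype_card, Fintype.card_subtype,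
    Finset.card_filter, Nat.cast_sum]
  refine Finset.sum_congr rfl fun p _ => ?_
  have h : RG.size (RG.ball 2 p.cls) = Nat.card (ballSet p.1.1 p.1.2 2) :=
    size_ball_cls p.1.1 p.1.2 p.2.1 2
  unfold indF IsSmall
  rw [h]
  push_cast
  rfl

theorem path_two (n : ℕ) (v : Fin n) : Two (pathGraph n) v := by
  intro w _ a b c _ _ _ hab hac hbc h1 h2 h3
  rw [pathGraph_adj] at h1 h2 h3
  have hab' : a.val ≠ b.val := fun h => hab (Fin.ext h)
  have hac' : a.val ≠ c.val := fun h => hac (Fin.ext h)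
  have hbc' : b.val ≠ c.val := fun h => hbc (Fin.ext h)
  omega

theorem path_mem (n : ℕ) : ∀ H ∈ TwoClaws, ¬ IsMinor H.2 (pathGraph n) := by
  rcases n with _ | n
  · rintro _ ⟨K, -, -, rfl⟩ ⟨B, hB, -, -⟩
    obtain ⟨⟨x, -⟩⟩ := (hB 0).nonempty
    exact x.elim0
  · exact not_minor (path_two (n + 1) 0)

theorem ex_nonempty (n : ℕ) (hn : 1 ≤ n) : Nonempty (Ex TwoClaws n) := by
  obtain ⟨m, rfl⟩ : ∃ m, n = m + 1 := ⟨n - 1, by omega⟩
  exact ⟨⟨(pathGraph (m + 1), 0), pathGraph_connected m, path_mem (m + 1)⟩⟩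

/-- In the labelled model the ball of radius `2` about the root is large with limiting probability
at least `1/2`. -/
theorem lab_escape (M : ℕ) (ε : ℝ) (hε : 0 < ε) :
    ∀ᶠ n : ℕ in atTop, expL TwoClaws n (indF 2 M) ≤ 1 / 2 + ε := by
  filter_upwards [low_rare (M + 7) (2 * ε) (by linarith), eventually_ge_atTop 1] with n hn hn1
  rw [expL_eq]
  have h0 : (0 : ℝ) < Nat.card (Ex TwoClaws n) := by
    haveI := ex_nonempty n hn1
    exact_mod_cast Nat.card_pos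
  rw [div_le_iff₀ h0]
  have h1 : ((2 * Nat.card {p : Ex TwoClaws n // IsSmall M n p} : ℕ) : ℝ) ≤
      ((Nat.card (Ex TwoClaws n) + Nat.card (Low (M + 7) n) : ℕ) : ℝ) := by
    exact_mod_cast small_le M n
  push_cast at h1
  nlinarith

end Pool.Agent.H49.Hub
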