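import Pool.Agent.H49.Hub.Join

/-!
# The structure of connected graphs without two disjoint claws
-/

set_option autoImplicit false

namespace Pool.Agent.H49.Hub

open SimpleGraph Filter Topology Pool.Agent.H265R3.ML

variable {V : Type} [Fintype V]

open Classical in
/-- The set of neighbours. -/
noncomputable def nb (G : SimpleGraph V) (x : V) : Finset V := Finset.univ.filter fun y => G.Adj x y

theorem mem_nb {G : SimpleGraph V} {x y : V} : y ∈ nb G x ↔ G.Adj x y := by simp [nb]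

theorem pick3 [DecidableEq V] {s : Finset V} (h : 3 ≤ s.card) :
    ∃ a ∈ s, ∃ b ∈ s, ∃ c ∈ s, a ≠ b ∧ a ≠ c ∧ b ≠ c := Finset.two_lt_card.1 h

theorem two_of_hub {G : SimpleGraph V} (hG : G.Connected) (hS : ∀ H ∈ TwoClaws, ¬ IsMinor H.2 G)
    {v : V} (hv : 7 ≤ (nb G v).card) : Two G v := by
  classical
  intro w hwv a b c hav hbv hcv hab hac hbc h1 h2 h3
  have hcard : 3 ≤ (nb G v \ {w, a, b, c}).card := by
    have h := Finset.le_card_sdiff ({w, a, b, c} : Finset V) (nb G v)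
    have h4 : ({w, a, b, c} : Finset V).card ≤ 4 := Finset.card_le_four
    omega
  obtain ⟨d, hd, e, he, f, hf, hde, hdf, hef⟩ := pick3 hcard
  simp only [Finset.mem_sdiff, Finset.mem_insert, Finset.mem_singleton, not_or, mem_nb] at hd he hf
  obtain ⟨hd, d1, d2, d3, d4⟩ := hd
  obtain ⟨he, e1, e2, e3, e4⟩ := he
  obtain ⟨hf, f1, f2, f3, f4⟩ := hf
  refine no_two_claws hG hS w a b c v d e f ?_ h1 h2 h3 hd he hf
  simp only [List.nodup_cons, List.mem_cons, List.not_mem_nil, or_false, not_or,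
    List.nodup_nil, and_true, not_false_eq_true]
  exact ⟨⟨h1.ne, h2.ne, h3.ne, hwv, Ne.symm d1, Ne.symm e1, Ne.symm f1⟩,
    ⟨hab, hac, hav, Ne.symm d2, Ne.symm e2, Ne.symm f2⟩,
    ⟨hbc, hbv, Ne.symm d3, Ne.symm e3, Ne.symm f3⟩,
    ⟨hcv, Ne.symm d4, Ne.symm e4, Ne.symm f4⟩,
    ⟨hd.ne, he.ne, hf.ne⟩, ⟨hde, hdf⟩, hef⟩

/-- After the deletion of the four (or fewer) vertices `X i` all degrees are at most `2`. -/
def Off (G : SimpleGraph V) (X : Fin 4 → V) : Prop :=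
  ∀ w, w ∉ Set.range X → ∀ a b c, a ∉ Set.range X → b ∉ Set.range X → c ∉ Set.range X →
    a ≠ b → a ≠ c → b ≠ c → G.Adj w a → G.Adj w b → G.Adj w c → False

theorem exists_off {G : SimpleGraph V} (hG : G.Connected)
    (hS : ∀ H ∈ TwoClaws, ¬ IsMinor H.2 G) : ∃ X : Fin 4 → V, Off G X := by
  classical
  by_cases h : ∃ u, 3 ≤ (nb G u).card
  · obtain ⟨u, hu⟩ := h
    obtain ⟨a, ha, b, hb, c, hc, hab, hac, hbc⟩ := pick3 hu
    rw [mem_nb] at ha hb hc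
    refine ⟨![u, a, b, c], ?_⟩
    intro w hw d e f hd he hf hde hdf hef h1 h2 h3
    have key : ∀ z, z ∉ Set.range ![u, a, b, c] → u ≠ z ∧ a ≠ z ∧ b ≠ z ∧ c ≠ z := by
      intro z hz
      refine ⟨fun h => hz ⟨0, h⟩, fun h => hz ⟨1, h⟩, fun h => hz ⟨2, h⟩, fun h => hz ⟨3, h⟩⟩
    obtain ⟨w1, w2, w3, w4⟩ := key w hw
    obtain ⟨d1, d2, d3, d4⟩ := key d hd
    obtain ⟨e1, e2, e3, e4⟩ := key e he
    obtain ⟨f1, f2, f3, f4⟩ := key f hf
    refine no_two_claws hG hS u a b c w d e f ?_ ha hb hc h1 h2 h3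
    simp only [List.nodup_cons, List.mem_cons, List.not_mem_nil, or_false, not_or,
      List.nodup_nil, and_true, not_false_eq_true]
    exact ⟨⟨ha.ne, hb.ne, hc.ne, w1, d1, e1, f1⟩, ⟨hab, hac, w2, d2, e2, f2⟩,
      ⟨hbc, w3, d3, e3, f3⟩, ⟨w4, d4, e4, f4⟩, ⟨h1.ne, h2.ne, h3.ne⟩, ⟨hde, hdf⟩, hef⟩
  · push Not at h
    obtain ⟨v⟩ := hG.nonempty
    refine ⟨fun _ => v, ?_⟩
    intro w _ a b c _ _ _ hab hac hbc h1 h2 h3
    have := Finset.two_lt_card.2 ⟨a, mem_nb.2 h1, b, mem_nb.2 h2, c, mem_nb.2 h3, hab, hac, hbc⟩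
    have := h w
    omega

end Pool.Agent.H49.Hub
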