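import Pool.Agent.H49.Hub.Lab

/-!
# The unlabelled model
-/

set_option autoImplicit false

namespace Pool.Agent.H49.Hub

open SimpleGraph Filter Topology MeasureTheory Pool.Agent.H265R3.ML

theorem cls_iff {n : ℕ} (p q : Ex TwoClaws n) :
    p.cls = q.cls ↔ ∃ e : p.1.1 ≃g q.1.1, e p.1.2 = q.1.2 := by
  constructor
  · intro h
    exact Quotient.exact h
  · intro h
    exact Quotient.sound h

theorem exists_enum {α : Type} [Nonempty α] (s : Finset α) (K : ℕ) (h : s.card ≤ K) :
    ∃ π : Fin K → α, ∀ z ∈ s, ∃ k, π k = z := by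
  classical
  refine ⟨fun k => (s.toList[(k : ℕ)]?).getD (Classical.arbitrary α), fun z hz => ?_⟩
  obtain ⟨i, hi, hiz⟩ := List.mem_iff_getElem.1 (Finset.mem_toList.2 hz)
  rw [Finset.length_toList] at hi
  refine ⟨⟨i, by omega⟩, ?_⟩
  show s.toList[i]?.getD _ = z
  rw [List.getElem?_eq_getElem (by rw [Finset.length_toList]; exact hi), hiz]
  rfl

/-- An isomorphism from `hubG G X A` is determined by its values in and next to `RT G X`. -/
theorem rigid {V W : Type} {G : SimpleGraph V} (hG : G.Connected) {X : Fin 4 → V} (hX : Off G X)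
    {A B : Set V} {T : SimpleGraph W} (e : hubG G X A ≃g T) (f : hubG G X B ≃g T)
    (h0 : ∀ z ∈ RT G X, e z = f z) (h1 : ∀ z ∈ RT G X, ∀ y, G.Adj z y → e y = f y) (z : V) :
    e z = f z := by
  have hT : Two T (e (X 0)) := by
    intro w hw a b c ha hb hc hab hac hbc h1 h2 h3
    have hne : ∀ u, u ≠ e (X 0) → e.symm u ≠ X 0 := fun u hu h => hu (by rw [← h]; simp)
    have hadj : ∀ u, T.Adj w u → (hubG G X A).Adj (e.symm w) (e.symm u) := fun u hu =>
      e.symm.map_adj_iff.2 hu
    exact hub_two A hX (e.symm w) (hne w hw) (e.symm a) (e.symm b) (e.symm c) (hne a ha) (hne b hb)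
      (hne c hc) (fun h => hab (e.symm.injective h)) (fun h => hac (e.symm.injective h))
      (fun h => hbc (e.symm.injective h)) (hadj a h1) (hadj b h2) (hadj c h3)
  have hX0 : e (X 0) = f (X 0) := h0 _ (Or.inl ⟨0, rfl⟩)
  have key : ∀ z y : V, ∀ _ : G.Walk z y, y ∈ Set.range X →
      e z = f z ∧ ∀ u, z ∉ Set.range X → u ∉ Set.range X → G.Adj z u → e u = f u := by
    intro z y p
    induction p with
    | @nil z => exact fun h => ⟨h0 z (Or.inl h), fun u _ _ hu => h1 z (Or.inl h) u hu⟩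
    | @cons z z' y h p ih =>
      intro hy
      by_cases hz : z ∈ RT G X
      · exact ⟨h0 z hz, fun u _ _ hu => h1 z hz u hu⟩
      · have hzX : z ∉ Set.range X := fun h => hz (Or.inl h)
        have hzX' : z' ∉ Set.range X := by
          rintro ⟨i, rfl⟩
          exact hz (Or.inr ⟨i, h.symm⟩)
        obtain ⟨hz1, hz2⟩ := ih hy
        have hzz : e z = f z := hz2 z hzX' hzX h.symm
        refine ⟨hzz, fun u _ hu huz => ?_⟩
        by_contra hne
        have huz' : u ≠ z' := fun h => hne (h ▸ hz1)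
        have hh : ∀ w, w ∉ Set.range X → e w ≠ e (X 0) := fun w hw h =>
          hw ⟨0, (e.injective h).symm⟩
        have hh' : ∀ w, w ∉ Set.range X → f w ≠ e (X 0) := fun w hw h =>
          hw ⟨0, (f.injective (h.trans hX0)).symm⟩
        refine hT (e z) (hh z hzX) (e z') (e u) (f u) (hh z' hzX') (hh u hu) (hh' u hu)
          (fun h => huz' (e.injective h).symm) (fun h => huz' (f.injective (hz1 ▸ h)).symm) hne
          (e.map_adj_iff.2 ⟨h.ne, Or.inl ⟨hzX, hzX', h⟩⟩)
          (e.map_adj_iff.2 ⟨huz.ne, Or.inl ⟨hzX, hu, huz⟩⟩) ?_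
        rw [hzz]
        exact f.map_adj_iff.2 ⟨huz.ne, Or.inl ⟨hzX, hu, huz⟩⟩
  obtain ⟨p⟩ := hG z (X 0)
  exact (key z (X 0) p ⟨0, rfl⟩).1

/-- The isomorphism type of `G` is determined by the hub graph, the images of the `X i` and of
their neighbours. -/
theorem recover {V V' W : Type} {G : SimpleGraph V} {G' : SimpleGraph V'} {X : Fin 4 → V}
    {X' : Fin 4 → V'} {A : Set V} {A' : Set V'} {T : SimpleGraph W} (e : hubG G X A ≃g T)
    (f : hubG G' X' A' ≃g T) (hX : ∀ i, e (X i) = f (X' i))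
    (hF : ∀ i w, (∃ y, G.Adj (X i) y ∧ e y = w) ↔ (∃ y, G'.Adj (X' i) y ∧ f y = w)) (u w : V) :
    G.Adj u w ↔ G'.Adj (f.symm (e u)) (f.symm (e w)) := by
  have hg : ∀ i, f.symm (e (X i)) = X' i := fun i => by rw [hX]; simp
  have h1 : ∀ i w, G.Adj (X i) w ↔ G'.Adj (X' i) (f.symm (e w)) := by
    intro i w
    have h := hF i (e w)
    constructor
    · intro h2
      obtain ⟨y, hy, hyw⟩ := h.1 ⟨w, h2, rfl⟩
      rw [← hyw]
      simpa using hy
    · intro h2
      obtain ⟨y, hy, hyw⟩ := h.2 ⟨_, h2, by simp⟩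
      rwa [e.injective hyw] at hy
  have hr : ∀ u, u ∉ Set.range X → f.symm (e u) ∉ Set.range X' := by
    rintro u hu ⟨i, hi⟩
    rw [← hg i] at hi
    exact hu ⟨i, e.injective (f.symm.injective hi)⟩
  by_cases hu : u ∈ Set.range X
  · obtain ⟨i, rfl⟩ := hu
    rw [hg]
    exact h1 i w
  · by_cases hw : w ∈ Set.range X
    · obtain ⟨i, rfl⟩ := hw
      rw [hg, G.adj_comm, G'.adj_comm]
      exact h1 i u
    · have h2 : ∀ {V : Type} (G : SimpleGraph V) (X : Fin 4 → V) (A : Set V) (x y : V),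
          x ∉ Set.range X → y ∉ Set.range X → ((hubG G X A).Adj x y ↔ G.Adj x y) := by
        intro V G X A x y hx hy
        constructor
        · rintro ⟨-, h | h | h⟩
          · exact h.2.2
          · exact absurd ⟨0, h.1.symm⟩ hx
          · exact absurd ⟨0, h.1.symm⟩ hy
        · intro h
          exact ⟨h.ne, Or.inl ⟨hx, hy, h⟩⟩
      rw [← h2 G X A u w hu hw, ← h2 G' X' A' _ _ (hr u hu) (hr w hw), f.symm.map_adj_iff,
        e.map_adj_iff]

end Pool.Agent.H49.Hub
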