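import Pool.Agent.H49.Hub.Unl

/-!
# The unlabelled model: counting
-/

set_option autoImplicit false

namespace Pool.Agent.H49.Hub

open SimpleGraph Filter Topology MeasureTheory Pool.Agent.H265R3.ML

/-- The classes with a representative of low degrees. -/
def UL (m n : ℕ) : Set RG := {x | ∃ p : Ex TwoClaws n, IsLow m n p ∧ p.cls = x}

theorem unl_finite (n : ℕ) : (unl TwoClaws n).Finite := Set.finite_range _

instance (n : ℕ) : Finite (unl TwoClaws n) := (unl_finite n).to_subtype

theorem UL_sub (m n : ℕ) : UL m n ⊆ unl TwoClaws n := by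
  rintro _ ⟨p, -, rfl⟩
  exact ⟨p, rfl⟩

instance (m n : ℕ) : Finite (UL m n) := ((unl_finite n).subset (UL_sub m n)).to_subtype

open Classical in
theorem UL_count (m n : ℕ) (hn : 1 ≤ n) :
    Nat.card (UL m n) * 2 ^ n ≤ Nat.card (unl TwoClaws n) *
      (n ^ 4 * ((4 * n + 1) ^ (4 * m) * (n ^ ((4 * m + 4) * (m + 1)) * (n + 1) ^ (4 * m + 4)))) := by
  haveI : Nonempty (Fin n) := ⟨⟨0, hn⟩⟩
  have hrep : ∀ x : UL m n, ∃ p : Ex TwoClaws n, IsLow m n p ∧ p.cls = x.1 := fun x => x.2
  choose p hlow hpx using hrep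
  have hoff : ∀ x : UL m n, ∃ X : Fin 4 → Fin n, Off (p x).1.1 X := fun x =>
    exists_off (p x).2.1 (p x).2.2
  choose X hX using hoff
  -- the vertices in or next to the range of `X`
  let R : UL m n → Finset (Fin n) := fun x => Finset.univ.filter fun w => w ∈ RT (p x).1.1 (X x)
  have hR : ∀ x, (R x).card ≤ 4 * m + 4 := by
    intro x
    have hsub : R x ⊆ (Finset.univ.biUnion fun i : Fin 4 => nb (p x).1.1 (X x i)) ∪
        Finset.univ.image (X x) := by
      intro w h
      simp only [R, Finset.mem_filter, Finset.mem_univ, true_and] at h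
      simp only [Finset.mem_union, Finset.mem_biUnion, Finset.mem_univ, true_and,
        Finset.mem_image, mem_nb]
      rcases h with ⟨i, hi⟩ | ⟨i, hi⟩
      · exact Or.inr ⟨i, hi⟩
      · exact Or.inl ⟨i, hi⟩
    refine (Finset.card_le_card hsub).trans ((Finset.card_union_le _ _).trans ?_)
    have h1 : (Finset.univ.biUnion fun i : Fin 4 => nb (p x).1.1 (X x i)).card ≤ 4 * m := by
      refine Finset.card_biUnion_le.trans ?_
      refine (Finset.sum_le_card_nsmul _ _ m fun i _ => hlow x _).trans ?_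
      simp
    have h2 : (Finset.univ.image (X x)).card ≤ 4 := Finset.card_image_le.trans (by simp)
    omega
  let P : UL m n → Finset (Fin n) := fun x => (R x).biUnion fun z => insert z (nb (p x).1.1 z)
  have hP : ∀ x, (P x).card ≤ (4 * m + 4) * (m + 1) := by
    intro x
    refine Finset.card_biUnion_le.trans ?_
    refine (Finset.sum_le_card_nsmul _ _ (m + 1) fun z _ =>
      (Finset.card_insert_le _ _).trans (Nat.succ_le_succ (hlow x z))).trans ?_
    rw [smul_eq_mul]
    exact Nat.mul_le_mul_right _ (hR x)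
  have henum : ∀ x, ∃ π : Fin ((4 * m + 4) * (m + 1)) → Fin n, ∀ z ∈ P x, ∃ k, π k = z :=
    fun x => exists_enum (P x) _ (hP x)
  choose π hπ using henum
  -- the hub graphs
  let Q : UL m n × Finset (Fin n) → Ex TwoClaws n := fun q =>
    ⟨(hubG (p q.1).1.1 (X q.1) (q.2 : Set (Fin n)), (p q.1).1.2),
      hub_conn _ (p q.1).2.1, not_minor (hub_two _ (hX q.1))⟩
  have hrep' : ∀ t : unl TwoClaws n, ∃ r : Ex TwoClaws n, r.cls = t.1 := fun t => t.2
  choose r hr using hrep'
  let tt : UL m n × Finset (Fin n) → unl TwoClaws n := fun q => ⟨(Q q).cls, ⟨Q q, rfl⟩⟩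
  have hiso : ∀ q, ∃ e : (Q q).1.1 ≃g (r (tt q)).1.1, e (Q q).1.2 = (r (tt q)).1.2 := fun q =>
    (cls_iff _ _).1 (hr (tt q)).symm
  choose e he using hiso
  let EX : UL m n × Finset (Fin n) → Finset (Fin 4 × Fin n) := fun q =>
    Finset.univ.filter fun s => ∃ y, (p q.1).1.1.Adj (X q.1 s.1) y ∧ e q y = s.2
  have hEX : ∀ q, (EX q).card ≤ 4 * m := by
    intro q
    have hsub : EX q ⊆ Finset.univ.biUnion fun i : Fin 4 =>
        (nb (p q.1).1.1 (X q.1 i)).image fun y => (i, e q y) := by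
      rintro ⟨i, w⟩ h
      simp only [EX, Finset.mem_filter, Finset.mem_univ, true_and] at h
      obtain ⟨y, hy, hyw⟩ := h
      simp only [Finset.mem_biUnion, Finset.mem_univ, true_and, Finset.mem_image, mem_nb]
      exact ⟨i, y, hy, by rw [hyw]⟩
    refine (Finset.card_le_card hsub).trans (Finset.card_biUnion_le.trans ?_)
    refine (Finset.sum_le_card_nsmul _ _ m fun i _ =>
      Finset.card_image_le.trans (hlow q.1 _)).trans ?_
    simp
  let AX : UL m n × Finset (Fin n) → Finset (Fin n) := fun q => q.2.filter fun w => w ∈ R q.1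
  have hAX : ∀ q, (AX q).card ≤ 4 * m + 4 := by
    intro q
    refine (Finset.card_le_card ?_).trans (hR q.1)
    intro w hw
    exact (Finset.mem_filter.1 hw).2
  have hcard : Nat.card (UL m n × Finset (Fin n)) = Nat.card (UL m n) * 2 ^ n := by
    rw [Nat.card_prod, Nat.card_eq_fintype_card (α := Finset (Fin n)), Fintype.card_finset,
      Fintype.card_fin]
  rw [← hcard]
  refine (Nat.card_le_card_of_injective (β := unl TwoClaws n × ((Fin 4 → Fin n) ×
    ({F : Finset (Fin 4 × Fin n) // F.card ≤ 4 * m} × ((Fin ((4 * m + 4) * (m + 1)) → Fin n) ×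
      {F : Finset (Fin n) // F.card ≤ 4 * m + 4}))))
    (fun q => (tt q, fun i => e q (X q.1 i), ⟨EX q, hEX q⟩, fun k => e q (π q.1 k),
      ⟨AX q, hAX q⟩)) ?_).trans ?_
  · rintro ⟨x, A⟩ ⟨y, B⟩ h
    have ht : tt (x, A) = tt (y, B) := congrArg (fun q => q.1) h
    have hx : ∀ i, e (x, A) (X x i) = e (y, B) (X y i) := fun i =>
      congrFun (congrArg (fun q => q.2.1) h) i
    have hE : EX (x, A) = EX (y, B) := congrArg (fun q => q.2.2.1.1) h
    have hk : ∀ k, e (x, A) (π x k) = e (y, B) (π y k) := fun k =>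
      congrFun (congrArg (fun q => q.2.2.2.1) h) k
    have ha : AX (x, A) = AX (y, B) := congrArg (fun q => q.2.2.2.2.1) h
    -- transport to one target
    obtain ⟨T, hT⟩ : ∃ T, T = r (tt (x, A)) := ⟨_, rfl⟩
    have hT' : T = r (tt (y, B)) := by rw [hT, ht]
    obtain ⟨e1, he1⟩ : ∃ e1 : (Q (x, A)).1.1 ≃g T.1.1, ∀ z, e1 z = e (x, A) z := by
      subst hT
      exact ⟨e (x, A), fun _ => rfl⟩
    obtain ⟨e2, he2⟩ : ∃ e2 : (Q (y, B)).1.1 ≃g T.1.1, ∀ z, e2 z = e (y, B) z := by
      subst hT'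
      exact ⟨e (y, B), fun _ => rfl⟩
    have hroot : e1 (p x).1.2 = e2 (p y).1.2 := by
      rw [he1, he2]
      have h1 := he (x, A)
      have h2 := he (y, B)
      exact h1.trans ((congrArg (fun t => (r t).1.2) ht).trans h2.symm)
    have hx' : ∀ i, e1 (X x i) = e2 (X y i) := fun i => by rw [he1, he2, hx]
    have hE' : ∀ i w, (∃ z, (p x).1.1.Adj (X x i) z ∧ e1 z = w) ↔
        (∃ z, (p y).1.1.Adj (X y i) z ∧ e2 z = w) := by
      intro i w
      have h1 : (i, w) ∈ EX (x, A) ↔ (i, w) ∈ EX (y, B) := by rw [hE]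
      simp only [EX, Finset.mem_filter, Finset.mem_univ, true_and] at h1
      simp only [he1, he2]
      exact h1
    have hxy : x = y := by
      apply Subtype.ext
      rw [← hpx x, ← hpx y, cls_iff]
      refine ⟨⟨e1.toEquiv.trans e2.toEquiv.symm, ?_⟩, ?_⟩
      · intro u w
        exact (recover e1 e2 hx' hE' u w).symm
      · show e2.symm (e1 (p x).1.2) = (p y).1.2
        rw [hroot]
        simp
    subst hxy
    have hk' : ∀ z ∈ P x, e1 z = e2 z := by
      intro z hz
      obtain ⟨k, rfl⟩ := hπ x z hz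
      rw [he1, he2, hk]
    have hRm : ∀ z, z ∈ RT (p x).1.1 (X x) → z ∈ R x := fun z hz => by
      simp only [R, Finset.mem_filter, Finset.mem_univ, true_and]
      exact hz
    have h0 : ∀ z ∈ RT (p x).1.1 (X x), e1 z = e2 z := fun z hz =>
      hk' z (Finset.mem_biUnion.2 ⟨z, hRm z hz, Finset.mem_insert_self _ _⟩)
    have h1 : ∀ z ∈ RT (p x).1.1 (X x), ∀ y, (p x).1.1.Adj z y → e1 y = e2 y := fun z hz y hy =>
      hk' y (Finset.mem_biUnion.2 ⟨z, hRm z hz, Finset.mem_insert_of_mem (mem_nb.2 hy)⟩)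
    have hall := rigid (p x).2.1 (hX x) e1 e2 h0 h1
    have hgr : hubG (p x).1.1 (X x) (A : Set (Fin n)) = hubG (p x).1.1 (X x) (B : Set (Fin n)) := by
      ext u w
      have h2 : (hubG (p x).1.1 (X x) (A : Set (Fin n))).Adj u w ↔ T.1.1.Adj (e1 u) (e1 w) :=
        (e1.map_adj_iff).symm
      have h3 : (hubG (p x).1.1 (X x) (B : Set (Fin n))).Adj u w ↔ T.1.1.Adj (e2 u) (e2 w) :=
        (e2.map_adj_iff).symm
      rw [h2, h3, hall, hall]
    have hfin := hub_inj hgr (fun _ _ => Iff.rfl) (by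
      intro w hw
      have h2 : w ∈ AX (x, A) ↔ w ∈ AX (x, B) := by rw [ha]
      simp only [AX, Finset.mem_filter] at h2
      simp only [hRm w hw, and_true] at h2
      exact h2)
    rw [Finset.coe_injective hfin.2]
  · simp only [Nat.card_prod]
    gcongr
    · rw [Nat.card_fun]; simp
    · refine (card_small _).trans (le_of_eq ?_)
      simp
    · rw [Nat.card_fun]; simp
    · refine (card_small _).trans (le_of_eq ?_)
      simp

end Pool.Agent.H49.Hub
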