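import Pool.Agent.H49.Hub.Unl2

/-!
# The unlabelled model: conclusion
-/

set_option autoImplicit false

namespace Pool.Agent.H49.Hub

open SimpleGraph Filter Topology MeasureTheory Pool.Agent.H265R3.ML

theorem size_cls (M : ℕ) {n : ℕ} (p : Ex TwoClaws n) :
    RG.size (RG.ball 2 p.cls) ≤ M ↔ IsSmall M n p := by
  have h : RG.size (RG.ball 2 p.cls) = Nat.card (ballSet p.1.1 p.1.2 2) :=
    size_ball_cls p.1.1 p.1.2 p.2.1 2
  rw [h]
  rfl

theorem unl_small_le (M n : ℕ) :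
    2 * Nat.card {x : unl TwoClaws n // RG.size (RG.ball 2 x.1) ≤ M} ≤
      Nat.card (unl TwoClaws n) + Nat.card (UL (M + 7) n) := by
  classical
  haveI := Fintype.ofFinite (unl TwoClaws n)
  have hrep : ∀ x : {x : unl TwoClaws n // RG.size (RG.ball 2 x.1) ≤ M ∧ x.1 ∉ UL (M + 7) n},
      ∃ p : Ex TwoClaws n, p.cls = x.1.1 := fun x => x.1.2
  choose p hp using hrep
  have h1 : ∀ x : {x : unl TwoClaws n // RG.size (RG.ball 2 x.1) ≤ M ∧ x.1 ∉ UL (M + 7) n},
      ∃ v, M + 7 < (nb (p x).1.1 v).card ∧ Two (p x).1.1 v ∧ (p x).1.2 ≠ v ∧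
        ¬ (p x).1.1.Adj (p x).1.2 v := by
    intro x
    refine exists_hub (p x) ?_ fun h => x.2.2 ⟨p x, h, hp x⟩
    have := x.2.1
    rwa [← hp x, size_cls] at this
  choose v hv h2 hne hna using h1
  have h3 : Nat.card {x : unl TwoClaws n // RG.size (RG.ball 2 x.1) ≤ M ∧ x.1 ∉ UL (M + 7) n} ≤
      Nat.card {x : unl TwoClaws n // ¬ RG.size (RG.ball 2 x.1) ≤ M} := by
    refine Nat.card_le_card_of_injective (fun x => ⟨⟨(flip (p x) (v x) (h2 x)).cls,
      ⟨_, rfl⟩⟩, fun h => flip_large (p x) (v x) (hv x) (h2 x) (hne x) ((size_cls M _).1 h)⟩) ?_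
    intro x y h
    have h' : (flip (p x) (v x) (h2 x)).cls = (flip (p y) (v y) (h2 y)).cls :=
      congrArg (fun z => z.1.1) h
    obtain ⟨e, he⟩ := (cls_iff _ _).1 h'
    have key := flip_iso (G := (p x).1.1) (G' := (p y).1.1) (v := v x) (o := (p x).1.2)
      (v' := v y) (o' := (p y).1.2) e.toEquiv (fun a b => (e.map_adj_iff).symm) he (h2 y)
      (by have := hv x; omega) (hna x) (hna y)
    apply Subtype.ext
    apply Subtype.ext
    rw [← hp x, ← hp y, cls_iff]
    exact ⟨⟨e.toEquiv, fun {a b} => (key a b).symm⟩, he⟩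
  have h4 : Nat.card {x : unl TwoClaws n // RG.size (RG.ball 2 x.1) ≤ M} ≤
      Nat.card {x : unl TwoClaws n // RG.size (RG.ball 2 x.1) ≤ M ∧ x.1 ∉ UL (M + 7) n} +
        Nat.card (UL (M + 7) n) := by
    have h5 : Nat.card {x : unl TwoClaws n // x.1 ∈ UL (M + 7) n} ≤ Nat.card (UL (M + 7) n) :=
      Nat.card_le_card_of_injective (fun x => ⟨x.1.1, x.2⟩) (by
        intro x y h
        apply Subtype.ext
        apply Subtype.ext
        exact congrArg (fun z : UL (M + 7) n => z.1) h)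
    refine le_trans ?_ (Nat.add_le_add_left h5 _)
    simp only [Nat.card_eq_fintype_card, Fintype.card_subtype]
    rw [← Finset.card_union_add_card_inter]
    refine le_trans (Finset.card_le_card ?_) (Nat.le_add_right _ _)
    intro x hx
    simp only [Finset.mem_filter, Finset.mem_univ, true_and, Finset.mem_union] at hx ⊢
    by_cases h : x.1 ∈ UL (M + 7) n
    · exact Or.inr h
    · exact Or.inl ⟨hx, h⟩
  have h6 : Nat.card {x : unl TwoClaws n // RG.size (RG.ball 2 x.1) ≤ M} +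
      Nat.card {x : unl TwoClaws n // ¬ RG.size (RG.ball 2 x.1) ≤ M} =
        Nat.card (unl TwoClaws n) := by
    simp only [Nat.card_eq_fintype_card]
    rw [Fintype.card_subtype_compl]
    have := Fintype.card_subtype_le
      (fun x : unl TwoClaws n => RG.size (RG.ball 2 x.1) ≤ M)
    omega
  omega

theorem UL_rare (m : ℕ) (ε : ℝ) (hε : 0 < ε) :
    ∀ᶠ n : ℕ in atTop, (Nat.card (UL m n) : ℝ) ≤ ε * Nat.card (unl TwoClaws n) := by
  refine rare _ _ 5 (4 + (4 * m + ((4 * m + 4) * (m + 1) + (4 * m + 4))))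
    (fun n hn => (UL_count m n hn).trans ?_) ε hε
  refine Nat.mul_le_mul_left _ ?_
  rw [pow_add (5 * n) 4, pow_add (5 * n) (4 * m), pow_add (5 * n) ((4 * m + 4) * (m + 1))]
  have h1 : n ≤ 5 * n := by omega
  have h2 : 4 * n + 1 ≤ 5 * n := by omega
  have h3 : n + 1 ≤ 5 * n := by omega
  exact Nat.mul_le_mul (Nat.pow_le_pow_left h1 _) (Nat.mul_le_mul (Nat.pow_le_pow_left h2 _)
    (Nat.mul_le_mul (Nat.pow_le_pow_left h1 _) (Nat.pow_le_pow_left h3 _)))

theorem expU_eq (M n : ℕ) : expU TwoClaws n (indF 2 M) =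
    (Nat.card {x : unl TwoClaws n // RG.size (RG.ball 2 x.1) ≤ M} : ℝ) /
      Nat.card (unl TwoClaws n) := by
  classical
  haveI := Fintype.ofFinite (unl TwoClaws n)
  unfold expU
  rw [← Nat.card_coe_set_eq]
  congr 1
  rw [finsum_mem_eq_finite_toFinset_sum _ (unl_finite n), Nat.card_eq_fintype_card,
    Fintype.card_subtype, Finset.card_filter, Nat.cast_sum]
  rw [← Finset.sum_coe_sort (unl_finite n).toFinset]
  refine Fintype.sum_equiv (Equiv.subtypeEquivRight fun x => Set.Finite.mem_toFinset _) _ _ ?_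
  rintro ⟨x, hx⟩
  unfold indF
  simp

theorem unl_escape (M : ℕ) (ε : ℝ) (hε : 0 < ε) :
    ∀ᶠ n : ℕ in atTop, expU TwoClaws n (indF 2 M) ≤ 1 / 2 + ε := by
  filter_upwards [UL_rare (M + 7) (2 * ε) (by linarith), eventually_ge_atTop 1] with n hn hn1
  rw [expU_eq]
  have h0 : (0 : ℝ) < Nat.card (unl TwoClaws n) := by
    obtain ⟨p⟩ := ex_nonempty n hn1
    haveI : Nonempty (unl TwoClaws n) := ⟨⟨p.cls, p, rfl⟩⟩
    exact_mod_cast Nat.card_pos
  rw [div_le_iff₀ h0]
  have h1 : ((2 * Nat.card {x : unl TwoClaws n // RG.size (RG.ball 2 x.1) ≤ M} : ℕ) : ℝ) ≤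
      ((Nat.card (unl TwoClaws n) + Nat.card (UL (M + 7) n) : ℕ) : ℝ) := by
    exact_mod_cast unl_small_le M n
  push_cast at h1
  nlinarith

end Pool.Agent.H49.Hub
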